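import Pool.Agent.Helper12_TRN.Stmts

/-! # Squad TREN, module ALN: alignment of reads in a tree -/

set_option autoImplicit false

namespace Pool.Agent.TRN.Aln

open Pool.Agent.TRN

/-! ### common prefixes -/

theorem cp_comm (x y : List Bool) : cp x y = cp y x := by
  induction x generalizing y with
  | nil => cases y <;> simp [cp]
  | cons a x ih =>
    cases y with
    | nil => simp [cp]
    | cons b y =>
      by_cases h : a = b
      · subst h
        simp [cp, ih]
      · simp [cp, h, Ne.symm h]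

theorem cp_le (x y : List Bool) : cp x y ≤ y.length := by
  induction x generalizing y with
  | nil => cases y <;> simp [cp]
  | cons a x ih =>
    cases y with
    | nil => simp [cp]
    | cons b y =>
      by_cases h : a = b
      · subst h
        have := ih y
        simp [cp]
        omega
      · simp [cp, h]

theorem cp_ultra (x y z : List Bool) (m : ℕ) (h1 : m ≤ cp x y) (h2 : m ≤ cp y z) :
    m ≤ cp x z := by
  induction x generalizing y z m with
  | nil =>
    cases y <;> simp [cp] at h1 <;> omega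
  | cons a x ih =>
    cases y with
    | nil =>
      simp [cp] at h1
      omega
    | cons b y =>
      cases z with
      | nil =>
        simp [cp] at h2
        omega
      | cons c z =>
        by_cases hab : a = b
        · by_cases hbc : b = c
          · subst hab hbc
            cases m with
            | zero => omega
            | succ m =>
              simp only [cp, if_true] at h1 h2 ⊢
              have := ih y z m (by omega) (by omega)
              omega
          · simp [cp, hbc] at h2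
            omega
        · simp [cp, hab] at h1
          omega

/-- isosceles triangles -/
theorem cp_eq {x y z : List Bool} (h : cp y z < cp x y) : cp x z = cp y z := by
  apply le_antisymm
  · by_contra hc
    push Not at hc
    have h1 := cp_ultra y x z (cp y z + 1) (by rw [cp_comm y x]; omega) (by omega)
    omega
  · exact cp_ultra x y z _ h.le le_rfl

/-! ### thinning -/

theorem thin (hcomb : CombStmt) : ∀ t M : ℕ, ∃ N : ℕ, M ≤ N ∧ ∀ x : ℕ → ℕ → List Bool,
    (∀ j, j < t → ∀ a b, a < b → b < N → x j a ≠ x j b) →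
    ∃ (f : ℕ → ℕ) (i : ℕ → ℕ) (d : ℕ → Bool), (∀ a, a < M → f a < N) ∧
      (∀ a b, a < b → b < M → f a < f b) ∧ ∀ j, j < t → i j < N ∧
        (d j = true → ∀ a b, a < b → b < M →
          cp (x j (f a)) (x j (i j)) < cp (x j (f b)) (x j (i j))) ∧
        (d j = false → ∀ a b, a < b → b < M →
          cp (x j (f b)) (x j (i j)) < cp (x j (f a)) (x j (i j))) := by
  classical
  intro t
  induction t with
  | zero =>
    intro M
    exact ⟨M, le_rfl, fun x _ => ⟨id, fun _ => 0, fun _ => true, fun a ha => ha,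
      fun a b hab _ => hab, fun j hj => absurd hj (Nat.not_lt_zero j)⟩⟩
  | succ t ih =>
    intro M
    obtain ⟨N₁, hMN, h1⟩ := ih M
    obtain ⟨N₂, h2⟩ := hcomb N₁
    refine ⟨max N₁ N₂, le_trans hMN (le_max_left _ _), ?_⟩
    intro x hx
    obtain ⟨f₁, i₁, hi₁, hf₁, hf₁m, hmono⟩ := h2 (x t) (fun a b hab hb =>
      hx t (Nat.lt_succ_self t) a b hab (lt_of_lt_of_le hb (le_max_right _ _)))
    obtain ⟨f₂, i₂, d₂, hf₂, hf₂m, h3⟩ := h1 (fun j a => x j (f₁ a)) (fun j hj a b hab hb =>
      hx j (Nat.lt_succ_of_lt hj) _ _ (hf₁m a b hab hb)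
        (lt_of_lt_of_le (hf₁ b hb) (le_max_right _ _)))
    have hlt : ∀ b, b < N₁ → f₁ b < max N₁ N₂ := fun b hb =>
      lt_of_lt_of_le (hf₁ b hb) (le_max_right _ _)
    refine ⟨fun a => f₁ (f₂ a), fun j => if j = t then i₁ else f₁ (i₂ j),
      fun j => if j = t then (if (∀ a b, a < b → b < N₁ →
        cp (x t (f₁ a)) (x t i₁) < cp (x t (f₁ b)) (x t i₁)) then true else false) else d₂ j,
      fun a ha => hlt _ (hf₂ a ha), fun a b hab hb => hf₁m _ _ (hf₂m a b hab hb) (hf₂ b hb), ?_⟩
    intro j hj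
    by_cases hjt : j = t
    · subst hjt
      simp only [if_true]
      refine ⟨lt_of_lt_of_le hi₁ (le_max_right _ _), ?_, ?_⟩
      · intro hd a b hab hb
        split_ifs at hd with hd'
        exact hd' _ _ (hf₂m a b hab hb) (hf₂ b hb)
      · intro hd a b hab hb
        split_ifs at hd with hd'
        exact (hmono.resolve_left hd') _ _ (hf₂m a b hab hb) (hf₂ b hb)
    · simp only [hjt, if_false]
      obtain ⟨h4, h5, h6⟩ := h3 j (by omega)
      exact ⟨hlt _ h4, h5, h6⟩

/-! ### leaders -/

theorem leaders (L : ℕ → ℕ → Prop) (hL : ∀ j, L j j) (lo : ℕ → ℕ) (K : Finset ℕ) :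
    ∃ I : Finset ℕ, I ⊆ K ∧ (∀ j' ∈ K, ∃ j ∈ I, L j j') ∧
      ∀ j ∈ I, ∀ j' ∈ I, j ≠ j' → (lo j ≤ lo j' ∧ ¬ L j j') ∨ (lo j' ≤ lo j ∧ ¬ L j' j) := by
  classical
  induction hn : K.card using Nat.strong_induction_on generalizing K with
  | _ n ih =>
  by_cases hK : K = ∅
  · subst hK
    exact ⟨∅, le_rfl, by simp, by simp⟩
  · obtain ⟨j₀, hj₀, hmin⟩ := Finset.exists_min_image K lo (Finset.nonempty_iff_ne_empty.2 hK)
    have hlt : (K.filter fun j => ¬ L j₀ j).card < n := by
      rw [← hn]
      apply Finset.card_lt_card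
      rw [Finset.filter_ssubset]
      exact ⟨j₀, hj₀, fun h => h (hL j₀)⟩
    obtain ⟨I, h1, h2, h3⟩ := ih _ hlt (K.filter fun j => ¬ L j₀ j) rfl
    refine ⟨insert j₀ I, ?_, ?_, ?_⟩
    · intro j hj
      rcases Finset.mem_insert.1 hj with rfl | hj
      · exact hj₀
      · exact (Finset.mem_filter.1 (h1 hj)).1
    · intro j' hj'
      by_cases h : L j₀ j'
      · exact ⟨j₀, Finset.mem_insert_self _ _, h⟩
      · obtain ⟨j, hj, hjj⟩ := h2 j' (Finset.mem_filter.2 ⟨hj', h⟩)
        exact ⟨j, Finset.mem_insert_of_mem hj, hjj⟩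
    · have key : ∀ j ∈ I, lo j₀ ≤ lo j ∧ ¬ L j₀ j := fun j hj =>
        ⟨hmin j (Finset.mem_filter.1 (h1 hj)).1, (Finset.mem_filter.1 (h1 hj)).2⟩
      intro j hj j' hj' hne
      rcases Finset.mem_insert.1 hj with e1 | hjI
      · rcases Finset.mem_insert.1 hj' with e2 | hjI'
        · exact absurd (e1.trans e2.symm) hne
        · rw [e1]
          exact Or.inl (key j' hjI')
      · rcases Finset.mem_insert.1 hj' with e2 | hjI'
        · rw [e2]
          exact Or.inr (key j hjI)
        · exact h3 j hjI j' hjI' hne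

/-! ### the core: positions on the paths -/

section core

variable {k M : ℕ} (x : ℕ → ℕ → List Bool) (z : ℕ → List Bool) (d : ℕ → Bool)

/-- the position of the `a`-th read of type `j` on its path -/
def pos (j a : ℕ) : ℕ := cp (x j a) (z j)

/-- lockstep -/
def Lock (M j j' : ℕ) : Prop := ∀ a, 1 ≤ a → a ≤ 2 * M + 2 →
  (d j = true → pos x z j (a - 1) ≤ cp (x j' a) (z j) ∧ cp (x j' a) (z j) < pos x z j (a + 1)) ∧
  (d j = false → pos x z j (a + 1) ≤ cp (x j' a) (z j) ∧ cp (x j' a) (z j) < pos x z j (a - 1))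

/-- the lower end of the annulus -/
def lo (M j : ℕ) : ℕ := if d j = true then pos x z j 1 else pos x z j (2 * M + 1)

/-- the upper end of the annulus -/
def hi (M j : ℕ) : ℕ := if d j = true then pos x z j (2 * M + 1) else pos x z j 1

variable {x z d}

/-- the monotonicity of the positions -/
def Mono (x : ℕ → ℕ → List Bool) (z : ℕ → List Bool) (d : ℕ → Bool) (M j : ℕ) : Prop :=
  (d j = true → ∀ a b, a < b → b < 2 * M + 4 → pos x z j a < pos x z j b) ∧
  (d j = false → ∀ a b, a < b → b < 2 * M + 4 → pos x z j b < pos x z j a)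

theorem Mono.lock {j : ℕ} (h : Mono x z d M j) : Lock x z d M j j := by
  intro a h1 h2
  refine ⟨fun hd => ⟨(h.1 hd (a - 1) a (by omega) (by omega)).le,
    h.1 hd a (a + 1) (by omega) (by omega)⟩, fun hd => ⟨(h.2 hd a (a + 1) (by omega)
      (by omega)).le, h.2 hd (a - 1) a (by omega) (by omega)⟩⟩

theorem Mono.ne {j : ℕ} (h : Mono x z d M j) {a b : ℕ} (hab : a < b) (hb : b < 2 * M + 4) :
    pos x z j a ≠ pos x z j b := by
  cases hd : d j
  · exact (h.2 hd a b hab hb).ne'
  · exact (h.1 hd a b hab hb).ne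

theorem Mono.lo_le {j : ℕ} (h : Mono x z d M j) {a : ℕ} (h1 : 1 ≤ a) (h2 : a ≤ 2 * M + 1) :
    lo x z d M j ≤ pos x z j a := by
  unfold lo
  cases hd : d j
  · simp only [Bool.false_eq_true, if_false]
    rcases h2.lt_or_eq with h3 | h3
    · exact (h.2 hd a _ h3 (by omega)).le
    · rw [h3]
  · simp only [if_true]
    rcases h1.lt_or_eq with h3 | h3
    · exact (h.1 hd 1 a h3 (by omega)).le
    · rw [← h3]

/-- the trichotomy -/
theorem tri {j j' : ℕ} (hm : Mono x z d M j)
    (h1 : (∀ a b, a < b → b < 2 * M + 4 → cp (x j' a) (z j) < pos x z j b) ∨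
      (∀ a b, a < b → b < 2 * M + 4 → pos x z j b ≤ cp (x j' a) (z j)))
    (h2 : (∀ a b, a < b → b < 2 * M + 4 → cp (x j' b) (z j) < pos x z j a) ∨
      (∀ a b, a < b → b < 2 * M + 4 → pos x z j a ≤ cp (x j' b) (z j))) :
    Lock x z d M j j' ∨
      (∀ a, 1 ≤ a → a ≤ 2 * M + 2 → hi x z d M j ≤ cp (x j' a) (z j)) ∨
      (∀ a, 1 ≤ a → a ≤ 2 * M + 2 → cp (x j' a) (z j) < lo x z d M j) := by
  cases hd : d j
  · -- decreasing
    rcases h1 with h1 | h1
    · right; right
      intro a ha1 ha2
      have e1 := h1 a (2 * M + 3) (by omega) (by omega)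
      have e2 := hm.2 hd (2 * M + 1) (2 * M + 3) (by omega) (by omega)
      unfold lo
      simp only [hd, Bool.false_eq_true, if_false]
      omega
    · rcases h2 with h2 | h2
      · left
        intro a ha1 ha2
        refine ⟨fun hd' => absurd hd' (by rw [hd]; decide), fun _ => ⟨h1 a (a + 1) (by omega)
          (by omega), h2 (a - 1) a (by omega) (by omega)⟩⟩
      · right; left
        intro a ha1 ha2
        have e1 := h2 0 a (by omega) (by omega)
        have e2 := hm.2 hd 0 1 (by omega) (by omega)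
        unfold hi
        simp only [hd, Bool.false_eq_true, if_false]
        omega
  · -- increasing
    rcases h1 with h1 | h1
    · rcases h2 with h2 | h2
      · right; right
        intro a ha1 ha2
        have e1 := h2 0 a (by omega) (by omega)
        have e2 := hm.1 hd 0 1 (by omega) (by omega)
        unfold lo
        simp only [hd, if_true]
        omega
      · left
        intro a ha1 ha2
        refine ⟨fun _ => ⟨h2 (a - 1) a (by omega) (by omega), h1 a (a + 1) (by omega)
          (by omega)⟩, fun hd' => absurd hd' (by rw [hd]; decide)⟩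
    · right; left
      intro a ha1 ha2
      have e1 := h1 a (2 * M + 3) (by omega) (by omega)
      have e2 := hm.1 hd (2 * M + 1) (2 * M + 3) (by omega) (by omega)
      unfold hi
      simp only [hd, if_true]
      omega

/-- two leaders have disjoint annuli -/
theorem disj {j j' : ℕ} (hm' : Mono x z d M j')
    (h : (∀ a, 1 ≤ a → a ≤ 2 * M + 2 → hi x z d M j ≤ cp (x j' a) (z j)) ∨
      (∀ a, 1 ≤ a → a ≤ 2 * M + 2 → cp (x j' a) (z j) < lo x z d M j))
    (hlo : lo x z d M j ≤ lo x z d M j') (ξ : List Bool)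
    (h1 : lo x z d M j ≤ cp ξ (z j)) (h1' : cp ξ (z j) < hi x z d M j)
    (h2 : lo x z d M j' ≤ cp ξ (z j')) : False := by
  have hw : lo x z d M j ≤ cp (z j) (z j') :=
    cp_ultra _ ξ _ _ (by rw [cp_comm]; exact h1) (le_trans hlo h2)
  have hp1 : lo x z d M j' ≤ pos x z j' 1 := hm'.lo_le le_rfl (by omega)
  have hG1 : lo x z d M j ≤ cp (x j' 1) (z j) :=
    cp_ultra _ (z j') _ _ (le_trans hlo hp1) (by rw [cp_comm]; exact hw)
  rcases h with h | h
  · have hw2 : hi x z d M j ≤ cp (z j) (z j') := by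
      by_contra hc
      push Not at hc
      have e1 : pos x z j' 1 = cp (z j) (z j') :=
        cp_eq (lt_of_lt_of_le hc (h 1 le_rfl (by omega)))
      have e2 : pos x z j' 2 = cp (z j) (z j') :=
        cp_eq (lt_of_lt_of_le hc (h 2 (by omega) (by omega)))
      exact hm'.ne (a := 1) (b := 2) (by omega) (by omega) (e1.trans e2.symm)
    have hlo2 : hi x z d M j ≤ lo x z d M j' := by
      have hp : ∀ a, 1 ≤ a → a ≤ 2 * M + 2 → hi x z d M j ≤ pos x z j' a := fun a ha1 ha2 =>
        cp_ultra _ (z j) _ _ (h a ha1 ha2) hw2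
      unfold lo
      split_ifs
      · exact hp 1 le_rfl (by omega)
      · exact hp (2 * M + 1) (by omega) (by omega)
    have e3 : hi x z d M j ≤ cp ξ (z j) :=
      cp_ultra _ (z j') _ _ (le_trans hlo2 h2) (by rw [cp_comm]; exact hw2)
    omega
  · have := h 1 le_rfl (by omega)
    omega

end core

/-- ALN -/
theorem aln : RamStmt → CombStmt → AlignStmt := by
  intro hram hcomb k M
  classical
  by_cases hk : k = 0
  · subst hk
    refine ⟨1, ?_⟩
    intro X u α β mark h1 _
    obtain ⟨h2, h3, -⟩ := h1 0 Nat.one_pos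
    rw [Nat.le_zero, Finset.card_eq_zero] at h3
    rw [h3] at h2
    exact absurd h2 Finset.not_nonempty_empty
  -- the colours
  let Col : Type := (Fin k → Fin k → Bool × Bool) × (Fin k → Bool × Bool × Bool)
  obtain ⟨N₁, hN₁⟩ := hram (Fintype.card Col) (2 * M + 5)
  obtain ⟨N, hNN, hN⟩ := thin hcomb k N₁
  refine ⟨N + 1, ?_⟩
  intro X u α β mark hX hdis
  -- the reads
  have hread : ∀ a, ∃ y : ℕ → List Bool, a < N + 1 → X a = (Finset.range k).image y := by
    intro a
    by_cases ha : a < N + 1
    · obtain ⟨hne, hcard, -⟩ := hX a ha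
      obtain ⟨ξ₀, hξ₀⟩ := hne
      let e := (X a).equivFin
      refine ⟨fun j => if h : j < (X a).card then (e.symm ⟨j, h⟩ : List Bool) else ξ₀, fun _ => ?_⟩
      ext ξ
      rw [Finset.mem_image]
      constructor
      · intro hξ
        refine ⟨(e ⟨ξ, hξ⟩ : ℕ), ?_, ?_⟩
        · rw [Finset.mem_range]
          exact lt_of_lt_of_le (e ⟨ξ, hξ⟩).2 hcard
        · rw [dif_pos (e ⟨ξ, hξ⟩).2]
          simp
      · rintro ⟨j, -, rfl⟩
        by_cases hj : j < (X a).card
        · rw [dif_pos hj]
          exact (e.symm ⟨j, hj⟩).2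
        · rw [dif_neg hj]
          exact hξ₀
    · exact ⟨fun _ => [], fun h => absurd h ha⟩
  choose y hy using hread
  have hymem : ∀ a, a < N + 1 → ∀ j, j < k → y a j ∈ X a := by
    intro a ha j hj
    rw [hy a ha]
    exact Finset.mem_image_of_mem _ (Finset.mem_range.2 hj)
  obtain ⟨f₁, i₁, d, hf₁, hf₁m, h1⟩ := hN (fun j a => y a j) (fun j hj a b hab hb => by
    intro heq
    have h2 := hymem a (by omega) j hj
    have h3 := hymem b (by omega) j hj
    have heq' : y a j = y b j := heq
    rw [heq'] at h2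
    exact (Finset.disjoint_left.1 (hdis a b hab (by omega))) h2 h3)
  -- the paths
  obtain ⟨z, hz⟩ : ∃ z : ℕ → List Bool, z = fun j => y (i₁ j) j := ⟨_, rfl⟩
  have hzX : ∀ j, j < k → z j ∈ X (i₁ j) ∧ i₁ j < N + 1 := by
    intro j hj
    rw [hz]
    have h2 := (h1 j hj).1
    exact ⟨hymem _ (by omega) j hj, by omega⟩
  let e := Fintype.equivFin Col
  let col : ℕ → ℕ → Fin (Fintype.card Col) := fun a b => e
    (fun j j' => (decide (cp (y (f₁ a) j') (z j) < cp (y (f₁ b) j) (z j)),
      decide (cp (y (f₁ b) j') (z j) < cp (y (f₁ a) j) (z j))),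
     fun j => (decide (cp (y (f₁ a) j) (z j) ≤ cp u (z j)),
      decide (cp (y (f₁ a) j) (z j) ≤ mark (z j)), decide (cp (y (f₁ a) j) (z j) ≤ mark u)))
  obtain ⟨f₂, c₀, hf₂, hf₂m, hcol⟩ := hN₁ col
  obtain ⟨F, hF⟩ : ∃ F : ℕ → ℕ, F = fun a => f₁ (f₂ a) := ⟨_, rfl⟩
  have hFlt : ∀ a, a < 2 * M + 5 → F a < N + 1 := by
    intro a ha
    rw [hF]
    have := hf₁ _ (hf₂ a ha)
    simp only
    omega
  have hFm : ∀ a b, a < b → b < 2 * M + 5 → F a < F b := by
    intro a b hab hb
    rw [hF]
    exact hf₁m _ _ (hf₂m a b hab hb) (hf₂ b hb)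
  obtain ⟨x, hx⟩ : ∃ x : ℕ → ℕ → List Bool, x = fun j a => y (F a) j := ⟨_, rfl⟩
  have hmono : ∀ j, j < k → Mono x z d M j := by
    intro j hj
    obtain ⟨-, h3, h4⟩ := h1 j hj
    refine ⟨fun hd a b hab hb => ?_, fun hd a b hab hb => ?_⟩
    · unfold pos
      rw [hx, hz, hF]
      exact h3 hd _ _ (hf₂m a b hab (by omega)) (hf₂ b (by omega))
    · unfold pos
      rw [hx, hz, hF]
      exact h4 hd _ _ (hf₂m a b hab (by omega)) (hf₂ b (by omega))
  -- constant colours
  have hcc : ∀ a b a' b', a < b → b < 2 * M + 5 → a' < b' → b' < 2 * M + 5 →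
      e.symm (col (f₂ a) (f₂ b)) = e.symm (col (f₂ a') (f₂ b')) := by
    intro a b a' b' hab hb hab' hb'
    rw [hcol a b hab hb, hcol a' b' hab' hb']
  have hR : ∀ j j', j < k → j' < k → ∀ a b a' b', a < b → b < 2 * M + 5 → a' < b' →
      b' < 2 * M + 5 →
      (cp (x j' a) (z j) < pos x z j b ↔ cp (x j' a') (z j) < pos x z j b') ∧
      (cp (x j' b) (z j) < pos x z j a ↔ cp (x j' b') (z j) < pos x z j a') := by
    intro j j' hj hj' a b a' b' hab hb hab' hb'
    have h2 := hcc a b a' b' hab hb hab' hb'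
    simp only [col, Equiv.symm_apply_apply] at h2
    have h3 := congrFun (congrFun (congrArg Prod.fst h2) ⟨j, hj⟩) ⟨j', hj'⟩
    simp only [Prod.mk.injEq, decide_eq_decide] at h3
    unfold pos
    rw [hx, hF]
    exact h3
  have hU : ∀ j, j < k → ∀ a a', a < 2 * M + 4 → a' < 2 * M + 4 →
      (pos x z j a ≤ cp u (z j) ↔ pos x z j a' ≤ cp u (z j)) ∧
      (pos x z j a ≤ mark (z j) ↔ pos x z j a' ≤ mark (z j)) ∧
      (pos x z j a ≤ mark u ↔ pos x z j a' ≤ mark u) := by
    intro j hj a a' ha ha'
    have h2 := hcc a (a + 1) a' (a' + 1) (by omega) (by omega) (by omega) (by omega)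
    simp only [col, Equiv.symm_apply_apply] at h2
    have h3 := congrFun (congrArg Prod.snd h2) ⟨j, hj⟩
    simp only [Prod.mk.injEq, decide_eq_decide] at h3
    unfold pos
    rw [hx, hF]
    exact h3
  have htri : ∀ j j', j < k → j' < k → ¬ Lock x z d M j j' →
      (∀ a, 1 ≤ a → a ≤ 2 * M + 2 → hi x z d M j ≤ cp (x j' a) (z j)) ∨
      (∀ a, 1 ≤ a → a ≤ 2 * M + 2 → cp (x j' a) (z j) < lo x z d M j) := by
    intro j j' hj hj' hL
    refine (tri (hmono j hj) ?_ ?_).resolve_left hL
    · by_cases h2 : cp (x j' 0) (z j) < pos x z j 1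
      · left
        intro a b hab hb
        exact ((hR j j' hj hj' a b 0 1 hab (by omega) (by omega) (by omega)).1).2 h2
      · right
        intro a b hab hb
        by_contra hc
        push Not at hc
        exact h2 (((hR j j' hj hj' a b 0 1 hab (by omega) (by omega) (by omega)).1).1 hc)
    · by_cases h2 : cp (x j' 1) (z j) < pos x z j 0
      · left
        intro a b hab hb
        exact ((hR j j' hj hj' a b 0 1 hab (by omega) (by omega) (by omega)).2).2 h2
      · right
        intro a b hab hb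
        by_contra hc
        push Not at hc
        exact h2 (((hR j j' hj hj' a b 0 1 hab (by omega) (by omega) (by omega)).2).1 hc)
  -- the leaders
  obtain ⟨I, hI1, hI2, hI3⟩ := leaders (fun j j' => j = j' ∨ (Lock x z d M j j'))
    (fun j => Or.inl rfl) (lo x z d M) (Finset.range k)
  have hIk : ∀ j ∈ I, j < k := fun j hj => Finset.mem_range.1 (hI1 hj)
  obtain ⟨g, hg⟩ : ∃ g : ℕ → ℕ, ∀ i (h : i < I.card), g i = I.orderEmbOfFin rfl ⟨i, h⟩ :=
    ⟨fun i => if h : i < I.card then I.orderEmbOfFin rfl ⟨i, h⟩ else 0, fun i h => dif_pos h⟩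
  have hgI : ∀ i, i < I.card → g i ∈ I := fun i h => by
    rw [hg i h]
    exact Finset.orderEmbOfFin_mem I rfl _
  have hginj : ∀ i i', i < I.card → i' < I.card → i ≠ i' → g i ≠ g i' := by
    intro i i' h h' hne heq
    rw [hg i h, hg i' h'] at heq
    have := (I.orderEmbOfFin rfl).injective heq
    exact hne (congrArg Fin.val this)
  have hgsurj : ∀ j ∈ I, ∃ i, i < I.card ∧ g i = j := by
    intro j hj
    have h2 : j ∈ Set.range (I.orderEmbOfFin rfl) := by
      rw [Finset.range_orderEmbOfFin]
      exact hj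
    obtain ⟨i, hi⟩ := h2
    exact ⟨i, i.2, by rw [hg i i.2]; exact hi⟩
  have hAnn : ∀ j l, Ann (d j) (fun a => pos x z j (2 * a + 1)) M l ↔
      lo x z d M j ≤ l ∧ l < hi x z d M j := by
    intro j l
    unfold Ann lo hi
    cases hd : d j <;> simp
  refine ⟨fun a => F (2 * a + 2), I.card, fun i => z (g i), fun i => d (g i),
    fun i a => pos x z (g i) (2 * a + 1), ?_, ?_, ?_, ?_, ?_, ?_⟩
  · intro a ha
    exact hFlt _ (by omega)
  · intro a b hab hb
    exact hFm _ _ (by omega) (by omega)
  · have := Finset.card_le_card hI1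
    rwa [Finset.card_range] at this
  · intro i hi
    have hj := hIk _ (hgI i hi)
    obtain ⟨hz1, hz2⟩ := hzX _ hj
    refine ⟨⟨_, hz2, hz1⟩, fun a _ => cp_le _ _, ?_, ?_, ?_, ?_, ?_⟩
    · intro hd a ha
      exact (hmono _ hj).1 hd _ _ (by omega) (by omega)
    · intro hd a ha
      exact (hmono _ hj).2 hd _ _ (by omega) (by omega)
    · by_cases h2 : pos x z (g i) 0 ≤ cp u (z (g i))
      · right
        have h3 : ∀ a, a < 2 * M + 4 → pos x z (g i) a ≤ cp u (z (g i)) := fun a ha =>
          ((hU _ hj a 0 ha (by omega)).1).2 h2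
        have h4 : ∀ a, a < 2 * M + 4 → pos x z (g i) a < cp u (z (g i)) →
            α ≤ pos x z (g i) a := by
          intro a ha hlt
          have e1 : cp (x (g i) a) u = pos x z (g i) a := by
            unfold pos at hlt ⊢
            have e2 : cp (z (g i)) (x (g i) a) < cp u (z (g i)) := by
              rw [cp_comm (z (g i))]
              exact hlt
            have e3 := cp_eq e2
            rw [cp_comm (x (g i) a) u, e3, cp_comm]
          rw [← e1]
          have e4 : x (g i) a ∈ X (F a) := by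
            rw [hx]
            exact hymem _ (hFlt a (by omega)) _ hj
          exact ((hX _ (hFlt a (by omega))).2.2 _ e4).1
        intro a ha
        refine ⟨h3 _ (by omega), ?_, ?_⟩
        · show α < pos x z (g i) (2 * a + 1)
          cases hd : d (g i)
          · have e1 := (hmono _ hj).2 hd (2 * a + 1) (2 * M + 2) (by omega) (by omega)
            have e2 := h3 (2 * a + 1) (by omega)
            have e3 := h4 (2 * M + 2) (by omega) (by omega)
            omega
          · have e1 := (hmono _ hj).1 hd 0 (2 * a + 1) (by omega) (by omega)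
            have e2 := h3 (2 * a + 1) (by omega)
            have e3 := h4 0 (by omega) (by omega)
            omega
        · show pos x z (g i) (2 * a + 1) < β
          have e1 := h3 (2 * a + 1) (by omega)
          have e2 := ((hX _ hz2).2.2 _ hz1).2
          rw [cp_comm] at e2
          omega
      · left
        intro a ha
        by_contra hc
        push Not at hc
        exact h2 (((hU _ hj (2 * a + 1) 0 (by omega) (by omega)).1).1 hc)
    · by_cases h2 : pos x z (g i) 0 ≤ mark (z (g i))
      · left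
        intro a ha
        exact ((hU _ hj (2 * a + 1) 0 (by omega) (by omega)).2.1).2 h2
      · right
        intro a ha
        by_contra hc
        push Not at hc
        exact h2 (((hU _ hj (2 * a + 1) 0 (by omega) (by omega)).2.1).1 hc)
    · by_cases h2 : pos x z (g i) 0 ≤ mark u
      · left
        intro a ha
        exact ((hU _ hj (2 * a + 1) 0 (by omega) (by omega)).2.2).2 h2
      · right
        intro a ha
        by_contra hc
        push Not at hc
        exact h2 (((hU _ hj (2 * a + 1) 0 (by omega) (by omega)).2.2).1 hc)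
  · intro a ha ξ hξ
    rw [hy _ (hFlt _ (by omega)), Finset.mem_image] at hξ
    obtain ⟨j', hj', rfl⟩ := hξ
    obtain ⟨j, hjI, hjL⟩ := hI2 j' hj'
    have hL : Lock x z d M j j' := by
      rcases hjL with h2 | h2
      · subst h2
        exact (hmono j (hIk j hjI)).lock
      · exact h2
    obtain ⟨i, hi, rfl⟩ := hgsurj j hjI
    refine ⟨i, hi, ?_⟩
    obtain ⟨h2, h3⟩ := hL (2 * a + 2) (by omega) (by omega)
    have hxe : y (F (2 * a + 2)) j' = x j' (2 * a + 2) := by rw [hx]
    rw [hxe]
    unfold Blk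
    cases hd : d (g i)
    · right
      obtain ⟨e1, e2⟩ := h3 hd
      have e3 : 2 * a + 2 - 1 = 2 * a + 1 := by omega
      have e4 : 2 * (a + 1) + 1 = 2 * a + 2 + 1 := by ring
      rw [e3] at e2
      refine ⟨hd, ?_, e2⟩
      show pos x z (g i) (2 * (a + 1) + 1) ≤ _
      rw [e4]
      exact e1
    · left
      obtain ⟨e1, e2⟩ := h2 hd
      have e3 : 2 * a + 2 - 1 = 2 * a + 1 := by omega
      have e4 : 2 * (a + 1) + 1 = 2 * a + 2 + 1 := by ring
      rw [e3] at e1
      refine ⟨hd, e1, ?_⟩
      show _ < pos x z (g i) (2 * (a + 1) + 1)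
      rw [e4]
      exact e2
  · intro i i' hi hi' hne ξ h2 h3
    rw [hAnn] at h2 h3
    have hjne := hginj i i' hi hi' hne
    have hj := hIk _ (hgI i hi)
    have hj' := hIk _ (hgI i' hi')
    rcases hI3 _ (hgI i hi) _ (hgI i' hi') hjne with ⟨h4, h5⟩ | ⟨h4, h5⟩
    · exact disj (hmono _ hj') (htri _ _ hj hj' fun h => h5 (Or.inr h)) h4 ξ h2.1 h2.2 h3.1
    · exact disj (hmono _ hj) (htri _ _ hj' hj fun h => h5 (Or.inr h)) h4 ξ h3.1 h3.2 h2.1

end Pool.Agent.TRN.Aln
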