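import Pool.Agent.Helper12_TRN.Stmts

set_option autoImplicit false

/-! CMB: among many distinct addresses there are many which branch off at different depths from
one of them. -/

namespace Pool.Agent.TRN

namespace H52

theorem le_cp (x : List Bool) : ∀ (y : List Bool) (d : ℕ), d ≤ cp x y ↔
    ∀ i, i < d → ∃ b, x[i]? = some b ∧ y[i]? = some b := by
  induction x with
  | nil =>
    intro y d
    have h : cp [] y = 0 := by cases y <;> rfl
    rw [h]
    constructor
    · intro h1 i hi
      omega
    · intro h1
      by_contra h2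
      obtain ⟨b, hb, _⟩ := h1 0 (by omega)
      simp at hb
  | cons a x ih =>
    intro y d
    cases y with
    | nil =>
      have h : cp (a :: x) [] = 0 := rfl
      rw [h]
      constructor
      · intro h1 i hi
        omega
      · intro h1
        by_contra h2
        obtain ⟨b, _, hb⟩ := h1 0 (by omega)
        simp at hb
    | cons b y =>
      have h : cp (a :: x) (b :: y) = if a = b then cp x y + 1 else 0 := rfl
      rw [h]
      by_cases hab : a = b
      · rw [if_pos hab]
        cases d with
        | zero =>
          constructor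
          · intro _ i hi
            omega
          · intro _
            omega
        | succ d =>
          rw [Nat.add_le_add_iff_right, ih y d]
          constructor
          · intro h1 i hi
            cases i with
            | zero => exact ⟨b, by simp [hab], by simp⟩
            | succ i =>
              obtain ⟨c, h2, h3⟩ := h1 i (by omega)
              exact ⟨c, by simpa using h2, by simpa using h3⟩
          · intro h1 i hi
            obtain ⟨c, h2, h3⟩ := h1 (i + 1) (by omega)
            exact ⟨c, by simpa using h2, by simpa using h3⟩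
      · rw [if_neg hab]
        constructor
        · intro h1 i hi
          omega
        · intro h1
          by_contra h2
          obtain ⟨c, h3, h4⟩ := h1 0 (by omega)
          simp at h3 h4
          exact hab (h3.trans h4.symm)

/-- The number of addresses. -/
def nc : ℕ → ℕ
  | 0 => 1
  | m + 1 => 2 * nc m + 2

theorem nc_pos : ∀ m, 0 < nc m
  | 0 => Nat.one_pos
  | m + 1 => by
    show 0 < 2 * nc m + 2
    omega

theorem comb_aux (x : ℕ → List Bool) : ∀ (m : ℕ) (S : Finset ℕ),
    (∀ a ∈ S, ∀ b ∈ S, a ≠ b → x a ≠ x b) → nc m ≤ S.card →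
    ∃ i ∈ S, ∃ T : Finset ℕ, T ⊆ S ∧ T.card = m ∧
      ∀ a ∈ T, ∀ b ∈ T, a ≠ b → cp (x a) (x i) ≠ cp (x b) (x i) := by
  classical
  intro m
  induction m with
  | zero =>
    intro S _ hc
    have h1 : 0 < S.card := lt_of_lt_of_le Nat.one_pos hc
    obtain ⟨i, hi⟩ := Finset.card_pos.1 h1
    exact ⟨i, hi, ∅, Finset.empty_subset _, rfl, fun a ha => absurd ha (Finset.notMem_empty a)⟩
  | succ m ih =>
    intro S hS hc
    have hc' : 2 * nc m + 2 ≤ S.card := hc
    have hm := nc_pos m
    -- the pair with the smallest common prefix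
    have hne : (S.offDiag).Nonempty := by
      obtain ⟨a, ha, b, hb, hab⟩ := Finset.one_lt_card.1 (by omega : 1 < S.card)
      exact ⟨(a, b), Finset.mem_offDiag.2 ⟨ha, hb, hab⟩⟩
    obtain ⟨q, hq, hmin⟩ := Finset.exists_min_image S.offDiag (fun q => cp (x q.1) (x q.2)) hne
    obtain ⟨hq1, hq2, hq3⟩ := Finset.mem_offDiag.1 hq
    set d := cp (x q.1) (x q.2) with hd
    have hmin' : ∀ a ∈ S, ∀ b ∈ S, a ≠ b → d ≤ cp (x a) (x b) := fun a ha b hb hab =>
      hmin (a, b) (Finset.mem_offDiag.2 ⟨ha, hb, hab⟩)
    have hagree : ∀ a ∈ S, ∀ b ∈ S, ∀ i, i < d → ∃ c, (x a)[i]? = some c ∧ (x b)[i]? = some c := by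
      intro a ha b hb i hi
      by_cases hab : a = b
      · subst hab
        obtain ⟨c, hcS, hca⟩ : ∃ c ∈ S, c ≠ a := by
          obtain ⟨c, hc1, hc2⟩ := Finset.exists_mem_ne (by omega : 1 < S.card) a
          exact ⟨c, hc1, hc2⟩
        obtain ⟨e, he, _⟩ := (le_cp _ _ _).1 (hmin' a ha c hcS (Ne.symm hca)) i hi
        exact ⟨e, he, he⟩
      · exact (le_cp _ _ _).1 (hmin' a ha b hb hab) i hi
    -- the three classes
    set Sn := S.filter (fun a => (x a)[d]? = none) with hSn
    set S0 := S.filter (fun a => (x a)[d]? = some false) with hS0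
    set S1 := S.filter (fun a => (x a)[d]? = some true) with hS1
    have hSn1 : Sn.card ≤ 1 := by
      refine Finset.card_le_one.2 fun a ha b hb => ?_
      rw [hSn, Finset.mem_filter] at ha hb
      by_contra hab
      refine hS a ha.1 b hb.1 hab ?_
      refine List.ext_getElem? fun i => ?_
      by_cases hi : i < d
      · obtain ⟨c, h1, h2⟩ := hagree a ha.1 b hb.1 i hi
        rw [h1, h2]
      · have h1 : (x a).length ≤ d := by
          have := ha.2
          rwa [List.getElem?_eq_none_iff] at this
        have h2 : (x b).length ≤ d := by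
          have := hb.2
          rwa [List.getElem?_eq_none_iff] at this
        rw [List.getElem?_eq_none (by omega), List.getElem?_eq_none (by omega)]
    have hcard : S.card ≤ Sn.card + S0.card + S1.card := by
      have h1 : S ⊆ Sn ∪ S0 ∪ S1 := by
        intro a ha
        rw [Finset.mem_union, Finset.mem_union, hSn, hS0, hS1, Finset.mem_filter,
          Finset.mem_filter, Finset.mem_filter]
        rcases h : (x a)[d]? with _ | c
        · exact Or.inl (Or.inl ⟨ha, rfl⟩)
        · cases c
          · exact Or.inl (Or.inr ⟨ha, rfl⟩)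
          · exact Or.inr ⟨ha, rfl⟩
      refine le_trans (Finset.card_le_card h1) ?_
      refine le_trans (Finset.card_union_le _ _) ?_
      exact Nat.add_le_add_right (Finset.card_union_le _ _) _
    -- the common step
    have key : ∀ c : Bool, nc m ≤ (S.filter (fun a => (x a)[d]? = some c)).card →
        ∃ i ∈ S, ∃ T : Finset ℕ, T ⊆ S ∧ T.card = m + 1 ∧
          ∀ a ∈ T, ∀ b ∈ T, a ≠ b → cp (x a) (x i) ≠ cp (x b) (x i) := by
      intro c hcc
      set S' := S.filter (fun a => (x a)[d]? = some c) with hS'
      have hsub : S' ⊆ S := Finset.filter_subset _ _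
      have hmem : ∀ a ∈ S', a ∈ S ∧ (x a)[d]? = some c := fun a ha => by
        rw [hS', Finset.mem_filter] at ha
        exact ha
      obtain ⟨i, hi, T, hT1, hT2, hT3⟩ := ih S'
        (fun a ha b hb => hS a (hsub ha) b (hsub hb)) hcc
      -- an element outside
      obtain ⟨y, hy, hy'⟩ : ∃ y ∈ S, y ∉ S' := by
        by_contra hcon
        push Not at hcon
        have h1 : d + 1 ≤ cp (x q.1) (x q.2) := by
          rw [le_cp]
          intro j hj
          by_cases hjd : j < d
          · exact hagree _ hq1 _ hq2 j hjd
          · have : j = d := by omega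
            subst this
            exact ⟨c, (hmem _ (hcon _ hq1)).2, (hmem _ (hcon _ hq2)).2⟩
        omega
      have hyT : y ∉ T := fun h => hy' (hT1 h)
      have hyc : (x y)[d]? ≠ some c := fun h => hy' (by
        rw [hS', Finset.mem_filter]
        exact ⟨hy, h⟩)
      have hyd : cp (x y) (x i) < d + 1 := by
        by_contra hcon
        push Not at hcon
        obtain ⟨e, h1, h2⟩ := (le_cp _ _ _).1 hcon d (Nat.lt_succ_self d)
        have h3 := (hmem i hi).2
        rw [h2] at h3
        rw [h3] at h1
        exact hyc h1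
      have hTd : ∀ a ∈ T, d + 1 ≤ cp (x a) (x i) := by
        intro a ha
        rw [le_cp]
        intro j hj
        by_cases hjd : j < d
        · exact hagree _ (hsub (hT1 ha)) _ (hsub hi) j hjd
        · have : j = d := by omega
          subst this
          exact ⟨c, (hmem _ (hT1 ha)).2, (hmem _ hi).2⟩
      refine ⟨i, hsub hi, insert y T, ?_, ?_, ?_⟩
      · intro a ha
        rw [Finset.mem_insert] at ha
        rcases ha with rfl | ha
        · exact hy
        · exact hsub (hT1 ha)
      · rw [Finset.card_insert_of_notMem hyT, hT2]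
      · intro a ha b hb hab
        rw [Finset.mem_insert] at ha hb
        rcases ha with rfl | ha <;> rcases hb with rfl | hb
        · exact absurd rfl hab
        · have := hTd b hb
          omega
        · have := hTd a ha
          omega
        · exact hT3 a ha b hb hab
    by_cases h0 : nc m ≤ S0.card
    · exact key false h0
    · refine key true ?_
      show nc m ≤ S1.card
      omega

end H52

theorem cmb (hram : RamStmt) : CombStmt := by
  classical
  intro M
  obtain ⟨m, hm⟩ := hram 2 M
  refine ⟨H52.nc m, fun x hx => ?_⟩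
  have hinj : ∀ a ∈ Finset.range (H52.nc m), ∀ b ∈ Finset.range (H52.nc m), a ≠ b →
      x a ≠ x b := by
    intro a ha b hb hab
    rw [Finset.mem_range] at ha hb
    rcases Nat.lt_or_gt_of_ne hab with h | h
    · exact hx a b h hb
    · exact (hx b a h ha).symm
  obtain ⟨i, hi, T, hT1, hT2, hT3⟩ := H52.comb_aux x m (Finset.range (H52.nc m)) hinj
    (by rw [Finset.card_range])
  let g : ℕ → ℕ := fun a => if h : a < m then T.orderEmbOfFin hT2 ⟨a, h⟩ else 0
  have hg1 : ∀ a, a < m → g a ∈ T := by
    intro a ha
    show (if h : a < m then T.orderEmbOfFin hT2 ⟨a, h⟩ else 0) ∈ T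
    rw [dif_pos ha]
    exact Finset.orderEmbOfFin_mem _ _ _
  have hg2 : ∀ a b, a < b → b < m → g a < g b := by
    intro a b hab hb
    have ha : a < m := lt_trans hab hb
    show (if h : a < m then T.orderEmbOfFin hT2 ⟨a, h⟩ else 0) <
      (if h : b < m then T.orderEmbOfFin hT2 ⟨b, h⟩ else 0)
    rw [dif_pos ha, dif_pos hb]
    exact (T.orderEmbOfFin hT2).strictMono hab
  obtain ⟨f, c0, hf1, hf2, hf3⟩ := hm fun a b =>
    if cp (x (g a)) (x i) < cp (x (g b)) (x i) then (0 : Fin 2) else 1
  refine ⟨fun a => g (f a), i, Finset.mem_range.1 hi, fun a ha => ?_, fun a b hab hb => ?_, ?_⟩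
  · exact Finset.mem_range.1 (hT1 (hg1 _ (hf1 a ha)))
  · exact hg2 _ _ (hf2 a b hab hb) (hf1 b hb)
  · by_cases hc : c0 = 0
    · left
      intro a b hab hb
      have h1 := hf3 a b hab hb
      by_contra hcon
      rw [if_neg hcon, hc] at h1
      exact absurd h1 (by decide)
    · right
      intro a b hab hb
      have h1 := hf3 a b hab hb
      have h2 : ¬ cp (x (g (f a))) (x i) < cp (x (g (f b))) (x i) := by
        intro h
        rw [if_pos h] at h1
        exact hc h1.symm
      have h3 : g (f a) < g (f b) := hg2 _ _ (hf2 a b hab hb) (hf1 b hb)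
      have h4 := hT3 _ (hg1 _ (hf1 a (lt_trans hab hb))) _ (hg1 _ (hf1 b hb)) (ne_of_lt h3)
      show cp (x (g (f b))) (x i) < cp (x (g (f a))) (x i)
      omega

end Pool.Agent.TRN
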