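import Pool.Agent.Helper12_TRN.Stmts

set_option autoImplicit false

/-! MUL: a multilinear function of several matrices is a linear functional of their tensor
product. -/

namespace Pool.Agent.TRN

namespace H52

open Matrix

universe u v

variable {F : Type u} [Field F]

/-- A family of vectors in a finite dimensional space is a combination of finitely many of its
members, with coefficients that are linear functionals. -/
theorem exists_frame {V : Type v} [AddCommGroup V] [Module F V] [FiniteDimensional F V]
    {Y : Type*} (w : Y → V) : ∃ (J : Type v) (_ : Fintype J) (y0 : J → Y) (l : J → V →ₗ[F] F),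
      ∀ y, w y = ∑ j, l j (w y) • w (y0 j) := by
  classical
  obtain ⟨b, hb1, hb2, hb3⟩ := exists_linearIndependent F (Set.range w)
  have hfin : Finite b := hb3.finite
  have : Fintype b := Fintype.ofFinite b
  let B := Module.Basis.span hb3
  have hy0 : ∀ j : b, ∃ y, w y = j := fun j => hb1 j.2
  choose y0 hy using hy0
  choose l hl using fun j : b => LinearMap.exists_extend (B.coord j)
  refine ⟨b, inferInstance, y0, l, fun y => ?_⟩
  have hmem : w y ∈ Submodule.span F (Set.range ((↑) : b → V)) := by
    rw [Subtype.range_coe, hb2]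
    exact Submodule.subset_span ⟨y, rfl⟩
  have h1 := B.sum_repr ⟨w y, hmem⟩
  have h2 : w y = ∑ j : b, B.repr ⟨w y, hmem⟩ j • (j : V) := by
    have h3 := congrArg Subtype.val h1
    rw [Submodule.coe_sum] at h3
    refine h3.symm.trans ?_
    refine Finset.sum_congr rfl fun j _ => ?_
    rw [Submodule.coe_smul]
    congr 1
    exact congrArg Subtype.val (Module.Basis.span_apply hb3 j)
  conv_lhs => rw [h2]
  refine Finset.sum_congr rfl fun j _ => ?_
  have h4 : l j (w y) = B.repr ⟨w y, hmem⟩ j := by
    have h5 := LinearMap.congr_fun (hl j) ⟨w y, hmem⟩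
    simpa using h5
  rw [h4, hy j]

theorem mul_aux {Y : Type*} {R : Type} [Fintype R] [DecidableEq R] : ∀ (p : ℕ)
    (w : Fin p → Y → Matrix R R F) (G : (Fin p → Y) → F),
    (∀ i (y : Fin p → Y), ∃ L : Matrix R R F →ₗ[F] F, ∀ v, G (Function.update y i v) = L (w i v)) →
    ∃ ψ : Matrix (Fin p → R) (Fin p → R) F →ₗ[F] F, ∀ y,
      G y = ψ (Matrix.of fun a b => ∏ i, w i (y i) (a i) (b i)) := by
  intro p
  induction p with
  | zero =>
    intro w G _
    refine ⟨⟨⟨fun Z => Z Fin.elim0 Fin.elim0 * G Fin.elim0, ?_⟩, ?_⟩, ?_⟩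
    · intro X Z
      simp only [Matrix.add_apply, add_mul]
    · intro c X
      simp only [Matrix.smul_apply, smul_eq_mul, RingHom.id_apply, mul_assoc]
    · intro y
      have hy : y = Fin.elim0 := Subsingleton.elim _ _
      subst hy
      show G Fin.elim0 = (∏ e : Fin 0, w e (Fin.elim0 e) (Fin.elim0 e) (Fin.elim0 e)) * G Fin.elim0
      rw [Finset.univ_eq_empty, Finset.prod_empty, one_mul]
  | succ p ih =>
    intro w G hG
    obtain ⟨J, _, y0, l, hl⟩ := exists_frame (F := F) (w (Fin.last p))
    have hih : ∀ j : J, ∃ ψ : Matrix (Fin p → R) (Fin p → R) F →ₗ[F] F, ∀ y : Fin p → Y,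
        G (Fin.snoc y (y0 j)) =
          ψ (Matrix.of fun a b => ∏ i : Fin p, w i.castSucc (y i) (a i) (b i)) := by
      intro j
      refine ih (fun i => w i.castSucc) (fun y => G (Fin.snoc y (y0 j))) fun i y => ?_
      obtain ⟨L, hL⟩ := hG i.castSucc (Fin.snoc y (y0 j))
      refine ⟨L, fun v => ?_⟩
      rw [← hL v]
      show G (Fin.snoc (Function.update y i v) (y0 j)) = _
      rw [Fin.snoc_update]
    choose ψ hψ using hih
    refine ⟨⟨⟨fun Z => ∑ j : J, ∑ z : R, ∑ z' : R, l j (Matrix.single z z' 1) *
      ψ j (Matrix.of fun a b => Z (Fin.snoc a z) (Fin.snoc b z')), ?_⟩, ?_⟩, ?_⟩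
    · intro X Z
      rw [← Finset.sum_add_distrib]
      refine Finset.sum_congr rfl fun j _ => ?_
      rw [← Finset.sum_add_distrib]
      refine Finset.sum_congr rfl fun z _ => ?_
      rw [← Finset.sum_add_distrib]
      refine Finset.sum_congr rfl fun z' _ => ?_
      rw [← mul_add, ← map_add]
      rfl
    · intro c X
      rw [RingHom.id_apply, smul_eq_mul, Finset.mul_sum]
      refine Finset.sum_congr rfl fun j _ => ?_
      rw [Finset.mul_sum]
      refine Finset.sum_congr rfl fun z _ => ?_
      rw [Finset.mul_sum]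
      refine Finset.sum_congr rfl fun z' _ => ?_
      rw [mul_left_comm, ← smul_eq_mul c, ← map_smul]
      rfl
    · intro y
      show G y = ∑ j : J, ∑ z : R, ∑ z' : R, l j (Matrix.single z z' 1) *
        ψ j (Matrix.of fun a b => ∏ i : Fin (p + 1), w i (y i)
          ((Fin.snoc a z : Fin (p + 1) → R) i) ((Fin.snoc b z' : Fin (p + 1) → R) i))
      have hstep : ∀ (j : J) (z z' : R), ψ j (Matrix.of fun a b => ∏ i : Fin (p + 1), w i (y i)
          ((Fin.snoc a z : Fin (p + 1) → R) i) ((Fin.snoc b z' : Fin (p + 1) → R) i)) =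
          w (Fin.last p) (y (Fin.last p)) z z' * G (Fin.snoc (Fin.init y) (y0 j)) := by
        intro j z z'
        have h1 : (Matrix.of fun a b => ∏ i : Fin (p + 1), w i (y i)
            ((Fin.snoc a z : Fin (p + 1) → R) i) ((Fin.snoc b z' : Fin (p + 1) → R) i)) =
            w (Fin.last p) (y (Fin.last p)) z z' • (Matrix.of fun (a b : Fin p → R) =>
              ∏ i : Fin p, w i.castSucc (Fin.init y i) (a i) (b i)) := by
          ext a b
          rw [Matrix.of_apply, Matrix.smul_apply, Matrix.of_apply, Fin.prod_univ_castSucc,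
            smul_eq_mul, mul_comm]
          congr 1
          · simp only [Fin.snoc_last]
          · refine Finset.prod_congr rfl fun i _ => ?_
            simp only [Fin.snoc_castSucc]
            rfl
        rw [h1, map_smul, ← hψ j, smul_eq_mul]
      have h2 : ∀ j : J, ∑ z : R, ∑ z' : R, l j (Matrix.single z z' 1) *
          ψ j (Matrix.of fun a b => ∏ i : Fin (p + 1), w i (y i)
          ((Fin.snoc a z : Fin (p + 1) → R) i) ((Fin.snoc b z' : Fin (p + 1) → R) i)) =
          l j (w (Fin.last p) (y (Fin.last p))) * G (Fin.snoc (Fin.init y) (y0 j)) := by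
        intro j
        have h3 : l j (w (Fin.last p) (y (Fin.last p))) = ∑ z : R, ∑ z' : R,
            w (Fin.last p) (y (Fin.last p)) z z' * l j (Matrix.single z z' 1) := by
          conv_lhs => rw [Matrix.matrix_eq_sum_single (w (Fin.last p) (y (Fin.last p))), map_sum]
          refine Finset.sum_congr rfl fun z _ => ?_
          rw [map_sum]
          refine Finset.sum_congr rfl fun z' _ => ?_
          have h4 : Matrix.single z z' (w (Fin.last p) (y (Fin.last p)) z z') =
              w (Fin.last p) (y (Fin.last p)) z z' • Matrix.single z z' (1 : F) := by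
            rw [Matrix.smul_single, smul_eq_mul, mul_one]
          rw [h4, map_smul, smul_eq_mul]
        rw [h3, Finset.sum_mul]
        refine Finset.sum_congr rfl fun z _ => ?_
        rw [Finset.sum_mul]
        refine Finset.sum_congr rfl fun z' _ => ?_
        rw [hstep j z z']
        ring
      rw [Finset.sum_congr rfl fun j _ => h2 j]
      obtain ⟨L, hL⟩ := hG (Fin.last p) y
      have h5 : ∀ v, G (Fin.snoc (Fin.init y) v) = L (w (Fin.last p) v) := by
        intro v
        rw [← hL v]
        congr 1
        funext i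
        refine Fin.lastCases ?_ (fun i => ?_) i
        · rw [Fin.snoc_last, Function.update_self]
        · rw [Fin.snoc_castSucc, Function.update_of_ne (Fin.castSucc_lt_last i).ne]
          rfl
      have h6 : G y = L (w (Fin.last p) (y (Fin.last p))) := by
        rw [← hL, Function.update_eq_self]
      rw [h6]
      conv_lhs => rw [hl (y (Fin.last p)), map_sum]
      refine Finset.sum_congr rfl fun j _ => ?_
      rw [map_smul, smul_eq_mul, h5]

end H52

theorem mul : MulStmt := by
  intro F _ p Y R _ _ w G hG
  exact H52.mul_aux p w G hG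

end Pool.Agent.TRN
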