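import Pool.Agent.Helper12_TRN.Stmts

set_option autoImplicit false

/-! Module RAM: Ramsey's theorem for pairs and finitely many colours. -/

namespace Pool.Agent.TREN.RAM

open Pool.Agent.TRN

/-- sequences for which the colour of a pair depends only on the smaller element -/
theorem endHom (C : ℕ) [NeZero C] (m : ℕ) : ∃ N : ℕ, ∀ (col : ℕ → ℕ → Fin C) (S : Finset ℕ),
    N ≤ S.card → ∃ (f : ℕ → ℕ) (g : ℕ → Fin C), (∀ a, a < m → f a ∈ S) ∧
      (∀ a b, a < b → b < m → f a < f b) ∧ ∀ a b, a < b → b < m → col (f a) (f b) = g a := by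
  induction m with
  | zero =>
    refine ⟨0, fun col S _ => ⟨fun _ => 0, fun _ => 0, ?_, ?_, ?_⟩⟩
    · intro a ha
      omega
    · intro a b _ hb
      omega
    · intro a b _ hb
      omega
  | succ m ih =>
    obtain ⟨N, hN⟩ := ih
    refine ⟨C * N + 1, fun col S hS => ?_⟩
    have hne : S.Nonempty := by
      rw [← Finset.card_pos]
      omega
    set a0 := S.min' hne with ha0
    have ha0S : a0 ∈ S := S.min'_mem hne
    have hcard : (Finset.univ : Finset (Fin C)).card * N ≤ (S.erase a0).card := by
      rw [Finset.card_erase_of_mem ha0S, Finset.card_univ, Fintype.card_fin]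
      omega
    obtain ⟨c, _, hc⟩ := Finset.exists_le_card_fiber_of_mul_le_card_of_maps_to
      (f := fun b => col a0 b) (fun b _ => Finset.mem_univ _) Finset.univ_nonempty hcard
    obtain ⟨f, g, h1, h2, h3⟩ := hN col _ hc
    have hmem : ∀ a, a < m → f a ∈ S ∧ a0 < f a ∧ col a0 (f a) = c := by
      intro a ha
      have h4 := h1 a ha
      rw [Finset.mem_filter, Finset.mem_erase] at h4
      refine ⟨h4.1.2, lt_of_le_of_ne (S.min'_le _ h4.1.2) (Ne.symm h4.1.1), h4.2⟩
    refine ⟨fun n => Nat.rec a0 (fun n _ => f n) n, fun n => Nat.rec c (fun n _ => g n) n,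
      ?_, ?_, ?_⟩
    · intro a ha
      cases a with
      | zero => exact ha0S
      | succ a => exact (hmem a (by omega)).1
    · intro a b hab hb
      cases b with
      | zero => omega
      | succ b =>
        cases a with
        | zero => exact (hmem b (by omega)).2.1
        | succ a => exact h2 a b (by omega) (by omega)
    · intro a b hab hb
      cases b with
      | zero => omega
      | succ b =>
        cases a with
        | zero => exact (hmem b (by omega)).2.2
        | succ a => exact h3 a b (by omega) (by omega)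

theorem ram : RamStmt := by
  intro C M
  rcases Nat.eq_zero_or_pos C with hC | hC
  · subst hC
    exact ⟨0, fun col => (col 0 0).elim0⟩
  · haveI : NeZero C := ⟨by omega⟩
    obtain ⟨N, hN⟩ := endHom C (C * M)
    refine ⟨N, fun col => ?_⟩
    obtain ⟨f, g, h1, h2, h3⟩ := hN col (Finset.range N) (by rw [Finset.card_range])
    obtain ⟨c0, _, hc0⟩ := Finset.exists_le_card_fiber_of_mul_le_card_of_maps_to
      (s := Finset.range (C * M)) (t := (Finset.univ : Finset (Fin C))) (n := M)
      (f := g) (fun b _ => Finset.mem_univ _) Finset.univ_nonempty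
      (by rw [Finset.card_univ, Fintype.card_fin, Finset.card_range])
    set I := (Finset.range (C * M)).filter (fun x => g x = c0) with hI
    set e := I.orderEmbOfFin rfl with he
    have hlt : ∀ a, a < M → a < I.card := fun a ha => lt_of_lt_of_le ha hc0
    obtain ⟨e', he'⟩ : ∃ e' : ℕ → ℕ, ∀ a (h : a < I.card), e' a = e ⟨a, h⟩ :=
      ⟨fun a => if h : a < I.card then e ⟨a, h⟩ else 0, fun a h => by simp [h]⟩
    have hin : ∀ a, a < M → e' a < C * M ∧ g (e' a) = c0 := by
      intro a ha
      have h4 : e ⟨a, hlt a ha⟩ ∈ I := I.orderEmbOfFin_mem rfl _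
      rw [← he' a (hlt a ha), hI, Finset.mem_filter, Finset.mem_range] at h4
      exact h4
    have hmono : ∀ a b, a < b → b < M → e' a < e' b := by
      intro a b hab hb
      rw [he' a (hlt a (by omega)), he' b (hlt b hb)]
      exact e.lt_iff_lt.2 hab
    refine ⟨fun a => f (e' a), c0, ?_, ?_, ?_⟩
    · intro a ha
      exact Finset.mem_range.1 (h1 _ (hin a ha).1)
    · intro a b hab hb
      exact h2 _ _ (hmono a b hab hb) (hin b hb).1
    · intro a b hab hb
      rw [h3 _ _ (hmono a b hab hb) (hin b hb).1]
      exact (hin a (by omega)).2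

end Pool.Agent.TREN.RAM
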