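import Pool.Agent.Helper12_TRN.Stmts

/-!
Module JET of the squad TREN: the order of a network at a generic point of few variables is bounded
if it can be made nonzero by changing few variables.
-/

set_option autoImplicit false
set_option linter.unusedSectionVars false

open Matrix Pool.Agent.UO

open scoped Pointwise

noncomputable section

namespace Pool.Agent.TREN.JET

open Pool.Agent.TRN

section core

variable {F : Type*} [Field F] {σ : Type} {r : ℕ} [DecidableEq (MvPolynomial σ F)]

/-- The entries of the tensor at an address, and one. -/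
def gens (τ : List Bool → Fin r → Fin r → Fin r → MvPolynomial σ F) (ξ : List Bool) :
    Finset (MvPolynomial σ F) :=
  insert 1 (Finset.univ.image fun x : Fin r × Fin r × Fin r => τ ξ x.1 x.2.1 x.2.2)

theorem card_gens (τ : List Bool → Fin r → Fin r → Fin r → MvPolynomial σ F) (ξ : List Bool) :
    (gens τ ξ).card ≤ r * r * r + 1 := by
  unfold gens
  refine (Finset.card_insert_le _ _).trans ?_
  refine Nat.add_le_add_right (Finset.card_image_le.trans ?_) 1
  rw [Finset.card_univ, Fintype.card_prod, Fintype.card_prod, Fintype.card_fin, mul_assoc]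

theorem one_mem_gens (τ : List Bool → Fin r → Fin r → Fin r → MvPolynomial σ F)
    (ξ : List Bool) : (1 : MvPolynomial σ F) ∈ gens τ ξ := by
  unfold gens
  exact Finset.mem_insert_self _ _

theorem mem_gens (τ : List Bool → Fin r → Fin r → Fin r → MvPolynomial σ F)
    (ξ : List Bool) (c a b : Fin r) : τ ξ c a b ∈ gens τ ξ := by
  unfold gens
  exact Finset.mem_insert_of_mem (Finset.mem_image.2 ⟨(c, a, b), Finset.mem_univ _, rfl⟩)

/-- The coefficients. -/
abbrev R0 (F : Type*) [Field F] (S : Set σ) : Subalgebra F (MvPolynomial σ F) :=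
  MvPolynomial.supported F Sᶜ

variable (S : Set σ) (τ : List Bool → Fin r → Fin r → Fin r → MvPolynomial σ F)
  (W : Finset (List Bool))

open Classical in
/-- The span of the products of entries of tensors at different addresses in `Z`. -/
def md (Z : Set (List Bool)) : Submodule (R0 F S) (MvPolynomial σ F) :=
  ∏ ξ ∈ W.filter (fun ξ => ξ ∈ Z), Submodule.span (R0 F S) (gens τ ξ : Set (MvPolynomial σ F))

theorem one_mem_span (ξ : List Bool) :
    (1 : MvPolynomial σ F) ∈ Submodule.span (R0 F S) (gens τ ξ : Set (MvPolynomial σ F)) :=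
  Submodule.subset_span (one_mem_gens τ ξ)

theorem one_le_prod (T : Finset (List Bool)) :
    (1 : Submodule (R0 F S) (MvPolynomial σ F)) ≤
      ∏ ξ ∈ T, Submodule.span (R0 F S) (gens τ ξ : Set (MvPolynomial σ F)) := by
  classical
  induction T using Finset.induction_on with
  | empty => rw [Finset.prod_empty]
  | insert ξ T h ih =>
    rw [Finset.prod_insert h, Submodule.one_le, ← one_mul (1 : MvPolynomial σ F)]
    exact Submodule.mul_mem_mul (one_mem_span S τ ξ) (Submodule.one_le.1 ih)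

theorem one_mem_md (Z : Set (List Bool)) : (1 : MvPolynomial σ F) ∈ md S τ W Z :=
  Submodule.one_le.1 (one_le_prod S τ _)

theorem coef_mem_md (Z : Set (List Bool)) {f : MvPolynomial σ F} (hf : f ∈ R0 F S) :
    f ∈ md S τ W Z := by
  have h := (md S τ W Z).smul_mem (⟨f, hf⟩ : R0 F S) (one_mem_md S τ W Z)
  rwa [Subalgebra.smul_def, smul_eq_mul, mul_one] at h

theorem md_mul {Z₁ Z₂ Z : Set (List Bool)} (hd : Disjoint Z₁ Z₂) (h1 : Z₁ ⊆ Z) (h2 : Z₂ ⊆ Z)
    {f g : MvPolynomial σ F} (hf : f ∈ md S τ W Z₁) (hg : g ∈ md S τ W Z₂) :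
    f * g ∈ md S τ W Z := by
  classical
  have h3 : f * g ∈ md S τ W Z₁ * md S τ W Z₂ := Submodule.mul_mem_mul hf hg
  unfold md at h3 ⊢
  have hdis : Disjoint (W.filter fun ξ => ξ ∈ Z₁) (W.filter fun ξ => ξ ∈ Z₂) := by
    rw [Finset.disjoint_left]
    intro ξ h4 h5
    exact Set.disjoint_left.1 hd (Finset.mem_filter.1 h4).2 (Finset.mem_filter.1 h5).2
  have hsub : (W.filter fun ξ => ξ ∈ Z₁) ∪ (W.filter fun ξ => ξ ∈ Z₂) ⊆
      W.filter fun ξ => ξ ∈ Z := by
    intro ξ h4
    rcases Finset.mem_union.1 h4 with h5 | h5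
    · exact Finset.mem_filter.2 ⟨(Finset.mem_filter.1 h5).1, h1 (Finset.mem_filter.1 h5).2⟩
    · exact Finset.mem_filter.2 ⟨(Finset.mem_filter.1 h5).1, h2 (Finset.mem_filter.1 h5).2⟩
  rw [← Finset.sdiff_union_of_subset hsub, Finset.prod_union Finset.sdiff_disjoint,
    Finset.prod_union hdis, ← one_mul (f * g)]
  refine Submodule.mul_mem_mul (Submodule.one_le.1 (one_le_prod S τ _)) h3

theorem md_mono {Z₁ Z : Set (List Bool)} (h1 : Z₁ ⊆ Z)
    {f : MvPolynomial σ F} (hf : f ∈ md S τ W Z₁) : f ∈ md S τ W Z := by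
  have h := md_mul S τ W (Z₂ := ∅) (Set.disjoint_empty Z₁) h1 (Set.empty_subset Z) hf
    (one_mem_md S τ W ∅)
  rwa [mul_one] at h

theorem gen_mem_md {ξ : List Bool} (hξ : ξ ∈ W) {Z : Set (List Bool)} (hZ : ξ ∈ Z)
    (c a b : Fin r) : τ ξ c a b ∈ md S τ W Z := by
  classical
  unfold md
  have h : ξ ∈ W.filter fun η => η ∈ Z := Finset.mem_filter.2 ⟨hξ, hZ⟩
  rw [← Finset.mul_prod_erase _ _ h, ← mul_one (τ ξ c a b)]
  exact Submodule.mul_mem_mul (Submodule.subset_span (mem_gens τ ξ c a b))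
    (Submodule.one_le.1 (one_le_prod S τ _))

/-- `f` is represented in `md Z`. -/
def Rep (Z : Set (List Bool)) (f : (σ → F) → F) : Prop :=
  ∃ g ∈ md S τ W Z, ∀ y, f y = MvPolynomial.eval y g

variable {S τ W}

theorem Rep.mul {Z₁ Z₂ Z : Set (List Bool)} (hd : Disjoint Z₁ Z₂) (h1 : Z₁ ⊆ Z) (h2 : Z₂ ⊆ Z)
    {f g : (σ → F) → F} (hf : Rep S τ W Z₁ f) (hg : Rep S τ W Z₂ g) :
    Rep S τ W Z (fun y => f y * g y) := by
  obtain ⟨p, hp, hp'⟩ := hf
  obtain ⟨q, hq, hq'⟩ := hg
  exact ⟨p * q, md_mul S τ W hd h1 h2 hp hq, fun y => by beta_reduce; rw [map_mul, hp', hq']⟩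

theorem Rep.sum {ι : Type*} {s : Finset ι} {Z : Set (List Bool)} {f : ι → (σ → F) → F}
    (hf : ∀ i ∈ s, Rep S τ W Z (f i)) : Rep S τ W Z (fun y => ∑ i ∈ s, f i y) := by
  classical
  have h : ∀ i, ∃ g ∈ md S τ W Z, i ∈ s → ∀ y, f i y = MvPolynomial.eval y g := by
    intro i
    by_cases hi : i ∈ s
    · obtain ⟨g, hg, hg'⟩ := hf i hi
      exact ⟨g, hg, fun _ => hg'⟩
    · exact ⟨0, zero_mem _, fun h => absurd h hi⟩
  choose g hg hg' using h
  refine ⟨∑ i ∈ s, g i, Submodule.sum_mem _ fun i _ => hg i, fun y => ?_⟩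
  rw [map_sum]
  exact Finset.sum_congr rfl fun i hi => hg' i hi y

theorem Rep.const {Z : Set (List Bool)} (c : F) : Rep S τ W Z (fun _ : σ → F => c) :=
  ⟨MvPolynomial.C c, coef_mem_md S τ W Z (Subalgebra.algebraMap_mem _ c), fun y => by
    rw [MvPolynomial.eval_C]⟩

theorem Rep.mono {Z₁ Z : Set (List Bool)} (h : Z₁ ⊆ Z) {f : (σ → F) → F}
    (hf : Rep S τ W Z₁ f) : Rep S τ W Z f := by
  obtain ⟨g, hg, hg'⟩ := hf
  exact ⟨g, md_mono S τ W h hg, hg'⟩

theorem spn (W : Finset (List Bool)) (S : Set σ)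
    (τ : List Bool → Fin r → Fin r → Fin r → MvPolynomial σ F) (Z : Set (List Bool))
    {f : MvPolynomial σ F} (hf : f ∈ md S τ W Z) :
    f ∈ Submodule.span (R0 F S) ((∏ ξ ∈ W, gens τ ξ : Finset (MvPolynomial σ F)) :
      Set (MvPolynomial σ F)) := by
  classical
  have h1 := md_mono S τ W (Set.subset_univ Z) hf
  unfold md at h1
  simp only [Set.mem_univ, Finset.filter_true] at h1
  rw [Submodule.prod_span, ← Finset.coe_prod] at h1
  exact h1

theorem card_prod_gens (W : Finset (List Bool))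
    (τ : List Bool → Fin r → Fin r → Fin r → MvPolynomial σ F) :
    (∏ ξ ∈ W, gens τ ξ : Finset (MvPolynomial σ F)).card ≤ (r * r * r + 1) ^ W.card := by
  classical
  induction W using Finset.induction_on with
  | empty =>
    rw [Finset.prod_empty, Finset.card_empty, pow_zero]
    exact le_of_eq rfl
  | insert ξ T h ih =>
    rw [Finset.prod_insert h, Finset.card_insert_of_notMem h, pow_succ']
    exact Finset.card_mul_le.trans (Nat.mul_le_mul (card_gens τ ξ) ih)

theorem prod_gens_supp (W : Finset (List Bool))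
    (τ : List Bool → Fin r → Fin r → Fin r → MvPolynomial σ F) (A : Set σ)
    (h : ∀ ξ ∈ W, ∀ c a b, τ ξ c a b ∈ MvPolynomial.supported F A) :
    ∀ f ∈ (∏ ξ ∈ W, gens τ ξ : Finset (MvPolynomial σ F)), f ∈ MvPolynomial.supported F A := by
  classical
  induction W using Finset.induction_on with
  | empty =>
    intro f hf
    rw [Finset.prod_empty, Finset.mem_one] at hf
    rw [hf]
    exact one_mem _
  | insert ξ T hξ ih =>
    intro f hf
    rw [Finset.prod_insert hξ, Finset.mem_mul] at hf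
    obtain ⟨g, hg, g', hg', rfl⟩ := hf
    refine mul_mem ?_ (ih (fun η hη => h η (Finset.mem_insert_of_mem hη)) g' hg')
    unfold gens at hg
    rcases Finset.mem_insert.1 hg with rfl | hg
    · exact one_mem _
    · obtain ⟨x, _, rfl⟩ := Finset.mem_image.1 hg
      exact h ξ (Finset.mem_insert_self _ _) _ _ _

theorem pow_supp (T : Finset (MvPolynomial σ F)) (A : Set σ)
    (h : ∀ f ∈ T, f ∈ MvPolynomial.supported F A) (κ : ℕ) :
    ∀ f ∈ T ^ κ, f ∈ MvPolynomial.supported F A := by
  induction κ with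
  | zero =>
    intro f hf
    rw [pow_zero, Finset.mem_one] at hf
    rw [hf]
    exact one_mem _
  | succ κ ih =>
    intro f hf
    rw [pow_succ, Finset.mem_mul] at hf
    obtain ⟨g, hg, g', hg', rfl⟩ := hf
    exact mul_mem (ih g hg) (h g' hg')

theorem prod_mem_pow (M : Submodule (R0 F S) (MvPolynomial σ F)) :
    ∀ (κ : ℕ) (f : Fin κ → MvPolynomial σ F), (∀ i, f i ∈ M) → ∏ i, f i ∈ M ^ κ := by
  intro κ
  induction κ with
  | zero =>
    intro f _
    rw [Fin.prod_univ_zero, pow_zero]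
    exact Submodule.one_le.1 le_rfl
  | succ κ ih =>
    intro f hf
    rw [Fin.prod_univ_succ, pow_succ']
    exact Submodule.mul_mem_mul (hf 0) (ih _ fun i => hf i.succ)

end core

section tree

variable {F : Type*} [Field F] {σ : Type} {r : ℕ} [DecidableEq (MvPolynomial σ F)]
  {S : Set σ} {τ : List Bool → Fin r → Fin r → Fin r → MvPolynomial σ F}
  {W : Finset (List Bool)} {A : Net F σ r}

/-- The addresses below `η`. -/
def below (η : List Bool) : Set (List Bool) := {ξ | η <+: ξ}

/-- The addresses below `z.take i`, but not below `z.take j`. -/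
def btw (z : List Bool) (i j : ℕ) : Set (List Bool) := {ξ | z.take i <+: ξ ∧ ¬ z.take j <+: ξ}

theorem below_disj (η : List Bool) : Disjoint (below (η ++ [false])) (below (η ++ [true])) := by
  rw [Set.disjoint_left]
  intro ξ h1 h2
  have h3 := List.prefix_of_prefix_length_le h1 h2 (by simp)
  have h4 := h3.eq_of_length (by simp)
  simp at h4

theorem below_sub (η : List Bool) (x : Bool) : below (η ++ [x]) ⊆ below η :=
  fun _ h => (List.prefix_append η [x]).trans h

theorem self_not_below (η : List Bool) (x : Bool) : η ∉ below (η ++ [x]) := by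
  intro h
  have h1 := List.IsPrefix.length_le h
  simp at h1

theorem rep_T (hτ : ∀ ξ y c a b, A.T ξ y c a b = MvPolynomial.eval y (τ ξ c a b))
    (hV : ∀ ξ c a b, τ ξ c a b ∈ MvPolynomial.supported F ((A.V ξ : Finset σ) : Set σ))
    (hW : ∀ ξ : List Bool, ξ.length < A.n → ξ ∉ W → ∀ v ∈ S, v ∉ A.V ξ)
    {ξ : List Bool} (hn : ξ.length < A.n) {Z : Set (List Bool)} (hZ : ξ ∈ Z) (c a b : Fin r) :
    Rep S τ W Z (fun y => A.T ξ y c a b) := by
  refine ⟨τ ξ c a b, ?_, fun y => hτ ξ y c a b⟩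
  by_cases h : ξ ∈ W
  · exact gen_mem_md S τ W h hZ c a b
  · refine coef_mem_md S τ W Z (MvPolynomial.supported_mono ?_ (hV ξ c a b))
    intro v hv hvS
    exact hW ξ hn h v hvS hv

theorem rep_msg (hτ : ∀ ξ y c a b, A.T ξ y c a b = MvPolynomial.eval y (τ ξ c a b))
    (hV : ∀ ξ c a b, τ ξ c a b ∈ MvPolynomial.supported F ((A.V ξ : Finset σ) : Set σ))
    (hW : ∀ ξ : List Bool, ξ.length < A.n → ξ ∉ W → ∀ v ∈ S, v ∉ A.V ξ) :
    ∀ (m : ℕ) (η : List Bool), η.length + m ≤ A.n → ∀ c,
      Rep S τ W (below η) (fun y => msg A.e (fun ξ => A.T ξ y) m η c) := by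
  intro m
  induction m with
  | zero =>
    intro η _ c
    exact Rep.const _
  | succ m ih =>
    intro η hη c
    have h1 : η.length < A.n := by omega
    have h2 : ∀ x : Bool, (η ++ [x]).length + m ≤ A.n := by
      intro x
      rw [List.length_append, List.length_singleton]
      omega
    refine Rep.sum fun a _ => Rep.sum fun b _ => ?_
    refine Rep.mul (Z₁ := {η}) (Z₂ := below (η ++ [false]) ∪ below (η ++ [true])) ?_ ?_ ?_
      (rep_T hτ hV hW h1 (Set.mem_singleton _) c a b) (Rep.mul (below_disj η) Set.subset_union_left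
        Set.subset_union_right (ih _ (h2 false) a) (ih _ (h2 true) b))
    · rw [Set.disjoint_left]
      intro ξ h3 h4
      rw [Set.mem_singleton_iff] at h3
      subst h3
      rcases h4 with h4 | h4
      · exact self_not_below _ _ h4
      · exact self_not_below _ _ h4
    · rw [Set.singleton_subset_iff]
      exact List.prefix_refl η
    · exact Set.union_subset (below_sub η false) (below_sub η true)

theorem take_succ_eq {z : List Bool} {l : ℕ} (hl : l < z.length) :
    z.take (l + 1) = z.take l ++ [z.getD l false] := by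
  rw [List.getD_eq_getElem _ _ hl, List.take_succ_eq_append_getElem hl]

theorem rep_lay (hτ : ∀ ξ y c a b, A.T ξ y c a b = MvPolynomial.eval y (τ ξ c a b))
    (hV : ∀ ξ c a b, τ ξ c a b ∈ MvPolynomial.supported F ((A.V ξ : Finset σ) : Set σ))
    (hW : ∀ ξ : List Bool, ξ.length < A.n → ξ ∉ W → ∀ v ∈ S, v ∉ A.V ξ)
    {z : List Bool} {l : ℕ} (hl : l < z.length) (hn : l < A.n) (c b : Fin r) :
    Rep S τ W (btw z l (l + 1)) (fun y => lay A.e A.n (fun ξ => A.T ξ y) z l c b) := by
  have hlen : (z.take l).length = l := by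
    rw [List.length_take]
    omega
  have h1 : (z.take l).length < A.n := by omega
  have h2 : ∀ x : Bool, (z.take l ++ [x]).length + (A.n - (l + 1)) ≤ A.n := by
    intro x
    rw [List.length_append, List.length_singleton]
    omega
  have hne : ∀ x : Bool, z.getD l false ≠ x → below (z.take l ++ [x]) ⊆ btw z l (l + 1) := by
    intro x hx ξ hξ
    refine ⟨(List.prefix_append _ [x]).trans hξ, fun h => ?_⟩
    rw [take_succ_eq hl] at h
    have h3 := List.prefix_of_prefix_length_le h hξ (by simp)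
    have h4 := h3.eq_of_length (by simp)
    apply hx
    have h5 := List.append_cancel_left h4
    simpa using h5
  have hself : ({z.take l} : Set (List Bool)) ⊆ btw z l (l + 1) := by
    rw [Set.singleton_subset_iff]
    refine ⟨List.prefix_refl _, fun h => ?_⟩
    rw [take_succ_eq hl] at h
    exact self_not_below _ _ h
  have hdis : ∀ x : Bool, Disjoint ({z.take l} : Set (List Bool)) (below (z.take l ++ [x])) := by
    intro x
    rw [Set.disjoint_singleton_left]
    exact self_not_below _ _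
  unfold lay
  by_cases hz : z.getD l false = true
  · simp only [if_pos hz, Matrix.of_apply]
    refine Rep.sum fun a _ => ?_
    exact Rep.mul (hdis false) hself (hne false (by rw [hz]; decide)) (rep_T hτ hV hW h1 (Set.mem_singleton _) c a b)
      (rep_msg hτ hV hW _ _ (h2 false) a)
  · simp only [if_neg hz, Matrix.of_apply]
    refine Rep.sum fun a _ => ?_
    exact Rep.mul (hdis true) hself (hne true hz) (rep_T hτ hV hW h1 (Set.mem_singleton _) c b a)
      (rep_msg hτ hV hW _ _ (h2 true) a)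

theorem rep_P (hτ : ∀ ξ y c a b, A.T ξ y c a b = MvPolynomial.eval y (τ ξ c a b))
    (hV : ∀ ξ c a b, τ ξ c a b ∈ MvPolynomial.supported F ((A.V ξ : Finset σ) : Set σ))
    (hW : ∀ ξ : List Bool, ξ.length < A.n → ξ ∉ W → ∀ v ∈ S, v ∉ A.V ξ)
    {z : List Bool} {i : ℕ} : ∀ j, i ≤ j → j ≤ z.length → j ≤ A.n → ∀ a b,
    Rep S τ W (btw z i j) (fun y => A.P z i j y a b) := by
  intro j hij
  induction j, hij using Nat.le_induction with
  | base =>
    intro _ _ a b
    have h : (fun y => A.P z i i y a b) = fun _ => (1 : Matrix (Fin r) (Fin r) F) a b := by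
      funext y
      unfold Net.P path
      rw [seg_self]
    rw [h]
    exact Rep.const _
  | succ j hij ih =>
    intro hj hn a b
    have h : (fun y => A.P z i (j + 1) y a b) = fun y => ∑ w, A.P z i j y a w *
        lay A.e A.n (fun ξ => A.T ξ y) z j w b := by
      funext y
      unfold Net.P path
      rw [← seg_mul _ hij (Nat.le_succ j), seg_succ, Matrix.mul_apply]
    rw [h]
    refine Rep.sum fun w _ => ?_
    refine Rep.mul (Z₁ := btw z i j) (Z₂ := btw z j (j + 1)) ?_ ?_ ?_
      (ih (by omega) (by omega) a w) (rep_lay hτ hV hW (by omega) (by omega) w b)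
    · rw [Set.disjoint_left]
      intro ξ h1 h2
      exact h1.2 h2.1
    · intro ξ h1
      exact ⟨h1.1, fun h2 => h1.2 ((List.take_prefix_take_left (Nat.le_succ j)).trans h2)⟩
    · intro ξ h1
      exact ⟨(List.take_prefix_take_left hij).trans h1.1, h1.2⟩

end tree

theorem jet : JetStmt := by
  classical
  intro F _ _ σ _ r k q κ A reads hB S u i j hij hju hjn D hD ψ
  obtain ⟨hk, hr, hq⟩ := hB
  have hex : ∀ ξ c a b, ∃ p ∈ MvPolynomial.supported F ((A.V ξ : Finset σ) : Set σ),
      ∀ y, A.T ξ y c a b = MvPolynomial.eval y p := by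
    intro ξ c a b
    apply CMP.exists_supported (A.poly ξ c a b)
    intro y y' h
    rw [A.dep ξ y y' (fun v hv => h v hv)]
  choose τ hV hτ using hex
  obtain ⟨W, hWd⟩ : ∃ W : Finset (List Bool), W = (S.biUnion reads).filter
      (fun ξ => ξ.length < A.n ∧ ∃ v ∈ S, v ∈ A.V ξ) := ⟨_, rfl⟩
  have hWc : W.card ≤ S.card * k := by
    rw [hWd]
    exact (Finset.card_le_card (Finset.filter_subset _ _)).trans
      (Finset.card_biUnion_le_card_mul _ _ k fun v _ => hk v)
  have hW : ∀ ξ : List Bool, ξ.length < A.n → ξ ∉ W → ∀ v ∈ (S : Set σ), v ∉ A.V ξ := by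
    intro ξ hn hξ v hv hvξ
    apply hξ
    rw [hWd, Finset.mem_filter, Finset.mem_biUnion]
    exact ⟨⟨v, hv, hr v ξ hn hvξ⟩, hn, v, hv, hvξ⟩
  have hP := rep_P (S := (S : Set σ)) (W := W) (fun ξ y c a b => hτ ξ c a b y) hV hW (z := u)
    j hij hju hjn
  choose gP hgP hgP' using hP
  obtain ⟨T, hT⟩ : ∃ T : Finset (MvPolynomial σ F), T = (∏ ξ ∈ W, gens τ ξ) ^ κ := ⟨_, rfl⟩
  have hTc : T.card ≤ D := by
    rw [hT]
    refine Finset.card_pow_le.trans ((Nat.pow_le_pow_left (card_prod_gens W τ) κ).trans ?_)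
    rw [← pow_mul, mul_comm W.card κ, pow_mul]
    exact (Nat.pow_le_pow_right (pow_pos (Nat.succ_pos _) _) hWc).trans hD
  have hTs : ∀ f ∈ T, f ∈ MvPolynomial.supported F ((W.biUnion A.V : Finset σ) : Set σ) := by
    rw [hT]
    apply pow_supp
    apply prod_gens_supp
    intro ξ hξ c a b
    refine MvPolynomial.supported_mono ?_ (hV ξ c a b)
    intro v hv
    exact Finset.mem_coe.2 (Finset.mem_biUnion.2 ⟨ξ, hξ, Finset.mem_coe.1 hv⟩)
  -- the polynomial
  obtain ⟨g, hg⟩ : ∃ g : (Fin κ → Fin r) → (Fin κ → Fin r) → MvPolynomial σ F,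
      g = fun a b => ∏ t, gP (a t) (b t) := ⟨_, rfl⟩
  have hgm : ∀ a b, g a b ∈ Submodule.span (R0 F (S : Set σ)) (T : Set (MvPolynomial σ F)) := by
    intro a b
    rw [hg, hT, Finset.coe_pow, ← Submodule.span_pow]
    exact prod_mem_pow _ κ _ fun t => spn W _ τ _ (hgP (a t) (b t))
  obtain ⟨G, hG⟩ : ∃ G : MvPolynomial σ F, G = ∑ a, ∑ b,
      MvPolynomial.C (ψ (Matrix.single a b 1)) * g a b := ⟨_, rfl⟩
  have hGm : G ∈ Submodule.span (R0 F (S : Set σ)) (T : Set (MvPolynomial σ F)) := by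
    rw [hG]
    refine Submodule.sum_mem _ fun a _ => Submodule.sum_mem _ fun b _ => ?_
    exact Submodule.smul_mem _ (⟨MvPolynomial.C (ψ (Matrix.single a b 1)),
      Subalgebra.algebraMap_mem _ _⟩ : R0 F (S : Set σ)) (hgm a b)
  have hGe : ∀ y, MvPolynomial.eval y G = ψ (kpow κ (A.P u i j y)) := by
    intro y
    rw [hG]
    conv_rhs => rw [Matrix.matrix_eq_sum_single (kpow κ (A.P u i j y))]
    rw [map_sum, map_sum]
    refine Finset.sum_congr rfl fun a _ => ?_
    rw [map_sum, map_sum]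
    refine Finset.sum_congr rfl fun b _ => ?_
    have h1 : MvPolynomial.eval y (g a b) = kpow κ (A.P u i j y) a b := by
      rw [hg]
      beta_reduce
      rw [map_prod, kpow_apply]
      exact Finset.prod_congr rfl fun t _ => (hgP' (a t) (b t) y).symm
    have h2 : Matrix.single a b (kpow κ (A.P u i j y) a b) =
        (kpow κ (A.P u i j y) a b) • Matrix.single a b (1 : F) := by
      rw [Matrix.smul_single, smul_eq_mul, mul_one]
    rw [map_mul, MvPolynomial.eval_C, h1, h2, map_smul, smul_eq_mul, mul_comm]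
  obtain ⟨α, -, hα⟩ := Submodule.mem_span_finset.1 hGm
  obtain ⟨ε⟩ : Nonempty (T ≃ Fin T.card) := ⟨T.equivFin⟩
  obtain ⟨Q, hQ0, hQA, hQ⟩ := CMP.low_of_jet (S : Set σ)
    (fun e : Fin T.card => ((ε.symm e : T) : MvPolynomial σ F))
    ((W.biUnion A.V : Finset σ) : Set σ) (fun e => hTs _ (ε.symm e).2)
  have hGs : G = ∑ e : Fin T.card, ((α (ε.symm e : T) : R0 F (S : Set σ)) : MvPolynomial σ F) *
      ((ε.symm e : T) : MvPolynomial σ F) := by
    rw [← hα, ← Finset.sum_coe_sort T]
    exact (Equiv.sum_comp ε.symm (fun x : T =>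
      ((α x : R0 F (S : Set σ)) : MvPolynomial σ F) * (x : MvPolynomial σ F))).symm
  refine ⟨G, Q, W.biUnion A.V, ?_, hQ0, hQA, hGe, ?_⟩
  · refine (Finset.card_biUnion_le_card_mul _ _ q fun l _ => hq l).trans ?_
    exact Nat.mul_le_mul_right q hWc
  · intro b hb c hc hne
    rw [hGs] at hne ⊢
    exact (hQ _ (fun e => (α (ε.symm e : T)).2) b hb c
      (fun a ha => hc a (fun h => ha (Finset.mem_coe.mpr h))) hne).mono hTc

end Pool.Agent.TREN.JET
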