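import Pool.Agent.Helper12_TRN.Stmts

/-!
# FRM: a formula is a tree network of width 2
-/

set_option autoImplicit false

namespace Pool.Agent.TRN

namespace FRM

variable {E : Type*} [Field E] {N : ℕ}

/-- a tensor of width 2 given by a table -/
noncomputable def tens (x y z w : Fin 2 → MvPolynomial (Fin N) E) :
    Fin 2 → Fin 2 → Fin 2 → MvPolynomial (Fin N) E :=
  fun c => ![![x c, y c], ![z c, w c]]

theorem val_tens (x y z w : Fin 2 → MvPolynomial (Fin N) E) (L R : Tree E N 2) (c : Fin 2) :
    (Tree.node (tens x y z w) L R).val c = x c * (L.val 0 * R.val 0) + y c * (L.val 0 * R.val 1) +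
      z c * (L.val 1 * R.val 0) + w c * (L.val 1 * R.val 1) := by
  change ∑ a, ∑ b, tens x y z w c a b * (L.val a * R.val b) = _
  simp only [Fin.sum_univ_two, tens, Matrix.cons_val_zero, Matrix.cons_val_one]
  ring

theorem mem_tvars {r : ℕ} {T : Fin r → Fin r → Fin r → MvPolynomial (Fin N) E} {i : Fin N} :
    i ∈ tvars T ↔ ∃ c a b, i ∈ (T c a b).vars := by
  simp [tvars]

theorem tvars_const {x y z w : Fin 2 → MvPolynomial (Fin N) E}
    (hx : ∀ c, (x c).vars = ∅) (hy : ∀ c, (y c).vars = ∅) (hz : ∀ c, (z c).vars = ∅)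
    (hw : ∀ c, (w c).vars = ∅) : tvars (tens x y z w) = ∅ := by
  rw [Finset.eq_empty_iff_forall_notMem]
  intro i hi
  obtain ⟨c, a, b, h⟩ := mem_tvars.1 hi
  fin_cases a <;> fin_cases b
  · change i ∈ (x c).vars at h
    rw [hx] at h
    exact absurd h (Finset.notMem_empty _)
  · change i ∈ (y c).vars at h
    rw [hy] at h
    exact absurd h (Finset.notMem_empty _)
  · change i ∈ (z c).vars at h
    rw [hz] at h
    exact absurd h (Finset.notMem_empty _)
  · change i ∈ (w c).vars at h
    rw [hw] at h
    exact absurd h (Finset.notMem_empty _)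

theorem vars_c (a b : E) (c : Fin 2) :
    ((![MvPolynomial.C a, MvPolynomial.C b] : Fin 2 → MvPolynomial (Fin N) E) c).vars = ∅ := by
  fin_cases c
  · exact MvPolynomial.vars_C
  · exact MvPolynomial.vars_C

theorem main (f : Formula E N) : ∃ t : Tree E N 2,
    (∀ V ∈ t.nodes, V.card ≤ 1) ∧
      (∀ i, t.nodes.countP (fun V => decide (i ∈ V)) = f.reads i) ∧ t.val 0 = 1 ∧
      t.val 1 = f.val := by
  induction f with
  | const c =>
    refine ⟨Tree.leaf ![1, c], ?_, ?_, ?_, ?_⟩
    · intro V hV
      simp [Tree.nodes] at hV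
    · intro i
      simp [Tree.nodes, Formula.reads]
    · simp [Tree.val]
    · simp [Tree.val, Formula.val]
  | var j =>
    have hv : tvars (tens ![1, MvPolynomial.X j] 0 0 0 :
        Fin 2 → Fin 2 → Fin 2 → MvPolynomial (Fin N) E) = {j} := by
      ext i
      rw [mem_tvars, Finset.mem_singleton]
      constructor
      · rintro ⟨c, a, b, h⟩
        fin_cases a <;> fin_cases b <;> fin_cases c <;>
          simp [tens, MvPolynomial.vars_X] at h
        exact h
      · rintro rfl
        refine ⟨1, 0, 0, ?_⟩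
        simp [tens, MvPolynomial.vars_X]
    refine ⟨Tree.node (tens ![1, MvPolynomial.X j] 0 0 0) (Tree.leaf ![1, 0]) (Tree.leaf ![1, 0]),
      ?_, ?_, ?_, ?_⟩
    · intro V hV
      simp only [Tree.nodes, hv, List.append_nil, List.mem_singleton] at hV
      rw [hV, Finset.card_singleton]
    · intro i
      simp only [Tree.nodes, hv, List.append_nil, Formula.reads]
      rw [List.countP_cons, List.countP_nil]
      by_cases h : i = j
      · subst h
        simp
      · have h' : ¬ j = i := fun e => h e.symm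
        simp [h, h']
    · rw [val_tens]
      simp [Tree.val]
    · rw [val_tens]
      simp [Tree.val, Formula.val]
  | add f g hf hg =>
    obtain ⟨t, h1, h2, h3, h4⟩ := hf
    obtain ⟨s, k1, k2, k3, k4⟩ := hg
    have hv : tvars (tens ![MvPolynomial.C 1, MvPolynomial.C 0]
        ![MvPolynomial.C 0, MvPolynomial.C 1] ![MvPolynomial.C 0, MvPolynomial.C 1]
        ![MvPolynomial.C 0, MvPolynomial.C 0] :
        Fin 2 → Fin 2 → Fin 2 → MvPolynomial (Fin N) E) = ∅ :=
      tvars_const (vars_c _ _) (vars_c _ _) (vars_c _ _) (vars_c _ _)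
    refine ⟨Tree.node (tens ![MvPolynomial.C 1, MvPolynomial.C 0]
        ![MvPolynomial.C 0, MvPolynomial.C 1] ![MvPolynomial.C 0, MvPolynomial.C 1]
        ![MvPolynomial.C 0, MvPolynomial.C 0]) t s, ?_, ?_, ?_, ?_⟩
    · intro V hV
      simp only [Tree.nodes, hv, List.mem_cons, List.mem_append] at hV
      rcases hV with rfl | h | h
      · simp
      · exact h1 V h
      · exact k1 V h
    · intro i
      simp only [Tree.nodes, hv, Formula.reads]
      rw [List.countP_cons, List.countP_append, h2, k2]
      simp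
    · rw [val_tens, h3, k3]
      simp
    · rw [val_tens, h3, k3, h4, k4]
      simp [Formula.val]
      ring
  | mul f g hf hg =>
    obtain ⟨t, h1, h2, h3, h4⟩ := hf
    obtain ⟨s, k1, k2, k3, k4⟩ := hg
    have hv : tvars (tens ![MvPolynomial.C 1, MvPolynomial.C 0]
        ![MvPolynomial.C 0, MvPolynomial.C 0] ![MvPolynomial.C 0, MvPolynomial.C 0]
        ![MvPolynomial.C 0, MvPolynomial.C 1] :
        Fin 2 → Fin 2 → Fin 2 → MvPolynomial (Fin N) E) = ∅ :=
      tvars_const (vars_c _ _) (vars_c _ _) (vars_c _ _) (vars_c _ _)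
    refine ⟨Tree.node (tens ![MvPolynomial.C 1, MvPolynomial.C 0]
        ![MvPolynomial.C 0, MvPolynomial.C 0] ![MvPolynomial.C 0, MvPolynomial.C 0]
        ![MvPolynomial.C 0, MvPolynomial.C 1]) t s, ?_, ?_, ?_, ?_⟩
    · intro V hV
      simp only [Tree.nodes, hv, List.mem_cons, List.mem_append] at hV
      rcases hV with rfl | h | h
      · simp
      · exact h1 V h
      · exact k1 V h
    · intro i
      simp only [Tree.nodes, hv, Formula.reads]
      rw [List.countP_cons, List.countP_append, h2, k2]
      simp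
    · rw [val_tens, h3, k3]
      simp
    · rw [val_tens, h3, k3, h4, k4]
      simp [Formula.val]

end FRM

theorem frm : FrmStmt := by
  intro E _ N f
  obtain ⟨t, h1, h2, -, h4⟩ := FRM.main f
  exact ⟨t, h1, h2, h4⟩

end Pool.Agent.TRN
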