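import Pool.Agent.Helper12_TRN.Stmts

/-!
# RNK: the rank of a tree network is at most logarithmic
-/

set_option autoImplicit false

namespace Pool.Agent.TRN

namespace RNK

variable {E : Type*} [Field E] {N r : ℕ}

/-- the number of inner vertices with a nonconstant tensor -/
noncomputable def nc (l : List (Finset (Fin N))) : ℕ := l.countP fun V => decide (V ≠ ∅)

theorem nc_cons (V : Finset (Fin N)) (l : List (Finset (Fin N))) :
    nc (V :: l) = nc l + if V = ∅ then 0 else 1 := by
  unfold nc
  rw [List.countP_cons]
  by_cases h : V = ∅ <;> simp [h]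

theorem nc_append (l l' : List (Finset (Fin N))) : nc (l ++ l') = nc l + nc l' := by
  unfold nc
  rw [List.countP_append]

theorem two_pow_le (t : Tree E N r) : t.rank ≠ 0 → 2 ^ (t.rank - 1) ≤ nc t.nodes := by
  induction t with
  | leaf v =>
    intro h
    exact absurd rfl h
  | node T L R hL hR =>
    intro h
    have e1 : nc (Tree.node T L R).nodes =
        nc L.nodes + nc R.nodes + if tvars T = ∅ then 0 else 1 := by
      change nc (tvars T :: (L.nodes ++ R.nodes)) = _
      rw [nc_cons, nc_append]
    have e2 : (Tree.node T L R).rank = if L.rank = R.rank then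
        (if L.rank = 0 ∧ tvars T = ∅ then 0 else L.rank + 1) else max L.rank R.rank := rfl
    rw [e1]
    rw [e2] at h ⊢
    by_cases h1 : L.rank = R.rank
    · rw [if_pos h1] at h ⊢
      by_cases h2 : L.rank = 0 ∧ tvars T = ∅
      · rw [if_pos h2] at h
        exact absurd rfl h
      · rw [if_neg h2, Nat.add_sub_cancel]
        by_cases h3 : L.rank = 0
        · have h4 : tvars T ≠ ∅ := fun h4 => h2 ⟨h3, h4⟩
          rw [if_neg h4, h3, pow_zero]
          omega
        · have h5 := hL h3
          have h6 := hR (h1 ▸ h3)
          rw [← h1] at h6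
          have h7 : 2 ^ L.rank = 2 ^ (L.rank - 1) + 2 ^ (L.rank - 1) := by
            obtain ⟨m, hm⟩ := Nat.exists_eq_succ_of_ne_zero h3
            rw [hm, Nat.succ_sub_one, pow_succ]
            omega
          rw [h7]
          omega
    · rw [if_neg h1] at h ⊢
      rcases le_total L.rank R.rank with h3 | h3
      · rw [max_eq_right h3] at h ⊢
        have h5 := hR h
        omega
      · rw [max_eq_left h3] at h ⊢
        have h5 := hL h
        omega

theorem nc_le (l : List (Finset (Fin N))) :
    nc l ≤ ∑ i : Fin N, l.countP fun V => decide (i ∈ V) := by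
  induction l with
  | nil => simp [nc]
  | cons V l ih =>
    rw [nc_cons]
    have h1 : ∑ i : Fin N, (V :: l).countP (fun V => decide (i ∈ V)) =
        (∑ i : Fin N, l.countP fun V => decide (i ∈ V)) + V.card := by
      have h2 : ∀ i : Fin N, (V :: l).countP (fun V => decide (i ∈ V)) =
          l.countP (fun V => decide (i ∈ V)) + if i ∈ V then 1 else 0 := by
        intro i
        rw [List.countP_cons]
        by_cases h : i ∈ V <;> simp [h]
      rw [Finset.sum_congr rfl fun i _ => h2 i, Finset.sum_add_distrib]
      congr 1
      rw [Finset.sum_ite_mem, Finset.univ_inter, Finset.sum_const, smul_eq_mul, mul_one]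
    rw [h1]
    by_cases h : V = ∅
    · rw [if_pos h]
      omega
    · rw [if_neg h]
      have h3 : 0 < V.card := Finset.card_pos.2 (Finset.nonempty_iff_ne_empty.2 h)
      omega

end RNK

theorem rnk : RnkStmt := by
  intro E _ N r k t ht
  by_cases h : t.rank = 0
  · rw [h]
    exact Nat.zero_le _
  · have h1 := RNK.two_pow_le t h
    have h2 := RNK.nc_le t.nodes
    have h3 : ∑ i : Fin N, t.nodes.countP (fun V => decide (i ∈ V)) ≤ k * N := by
      refine (Finset.sum_le_sum fun i _ => ht i).trans ?_
      rw [Finset.sum_const, Finset.card_univ, Fintype.card_fin, smul_eq_mul, mul_comm]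
    have h4 : 2 ^ (t.rank - 1) ≤ k * N := h1.trans (h2.trans h3)
    have h5 : t.rank - 1 ≤ Nat.log 2 (k * N) := by
      apply Nat.le_log_of_pow_le one_lt_two h4
    omega

end Pool.Agent.TRN
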